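import Pool.Agent.Odp3.An.Taylor
import Pool.Agent.Odp2.G.Approx

/-!
# Approximation of holomorphic solutions by elements of a normal domain
-/

open scoped ContDiff Topology ENNReal NNReal
open Set Filter MvPolynomial Metric Pool.Agent.Odp2

namespace Pool.Agent.Odp3

section

variable {n : ℕ} {B : Type*} [CommRing B] [IsDomain B] [IsIntegrallyClosed B]
  [Algebra (MvPolynomial (Fin n) ℂ) B] [FaithfulSMul (MvPolynomial (Fin n) ℂ) B]
  [Module.Finite (MvPolynomial (Fin n) ℂ) B]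

theorem tay_poly_bdd (q : MvPolynomial (Fin n) ℂ) (r : ℝ) :
    ∃ C : ℝ, 0 ≤ C ∧ ∀ w, nq w < r ^ 2 → ‖eval w q‖ ≤ C := by
  classical
  have hr : (1 : ℝ) ≤ 1 + |r| := by have := abs_nonneg r; linarith
  let ε : ℝ := ∑ m ∈ q.support, ‖coeff m q‖
  have hε : ∀ m, ‖coeff m q‖ ≤ ε := by
    intro m
    by_cases hm : m ∈ q.support
    · exact Finset.single_le_sum (f := fun m => ‖coeff m q‖) (fun _ _ => norm_nonneg _) hm
    · rw [notMem_support_iff.mp hm, norm_zero]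
      exact Finset.sum_nonneg fun _ _ => norm_nonneg _
  refine ⟨_, ?_, fun w hw => tay_eval_le (K := q.totalDegree + 1)
    (fun m hm => Nat.lt_succ_of_le (le_totalDegree hm)) hε hr ?_⟩
  · have := (norm_nonneg _).trans (hε 0)
    positivity
  · have h1 := tay_norm_le_sqrt w
    have h2 : √(nq w) ≤ |r| := Real.sqrt_le_iff.mpr ⟨abs_nonneg r, by rw [sq_abs]; exact hw.le⟩
    linarith

/-- holomorphic solutions of the linear equations are approximated by elements of `B` -/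
theorem approx_hol_unif {k L s : ℕ} (φ : Fin k → B →ₗ[MvPolynomial (Fin n) ℂ] MvPolynomial (Fin n) ℂ)
    (hφ : Submodule.span (MvPolynomial (Fin n) ℂ) (Set.range φ) = ⊤) (e : Fin s → B)
    (he : Submodule.span (MvPolynomial (Fin n) ℂ) (Set.range e) = ⊤)
    (A : Fin L → Fin k → MvPolynomial (Fin n) ℂ)
    (hA : ∀ a : Fin k → MvPolynomial (Fin n) ℂ, ∑ j, a j • φ j = 0 →
      a ∈ Submodule.span (MvPolynomial (Fin n) ℂ) (Set.range A)) (M : ℕ) :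
    ∃ Λ : Finset (Fin n →₀ ℕ), ∀ ρ : ℝ, 0 < ρ → ρ ≤ 1 → ∃ C : ℝ, 0 ≤ C ∧
      ∀ (g : Fin k → (Fin n → ℂ) → ℂ) (t : ℝ), 0 ≤ t →
      (∀ j, DifferentiableOn ℂ (g j) (bal n ρ)) →
      (∀ j w, nq w < ρ ^ 2 → ‖g j w‖ ≤ t) →
      (∀ l w, nq w < ρ ^ 2 → ∑ j, eval w (A l j) * g j w = 0) →
      ∃ b : Fin s → MvPolynomial (Fin n) ℂ, (∀ i, (b i).support ⊆ Λ) ∧
        (∀ i m, ‖coeff m (b i)‖ ≤ C * t) ∧ ∀ j w, nq w < ρ ^ 2 →
          ‖g j w - eval w (φ j (∑ i, b i • e i))‖ ≤ C * t * √(nq w) ^ M := by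
  classical
  obtain ⟨c, hc⟩ := approx_bound φ hφ e he A hA
  obtain ⟨C₁, Λ, hC₁, h1⟩ := hc (M + 1)
  refine ⟨Λ, fun ρ hρ hρ1 => ?_⟩
  obtain ⟨C₂, hC₂, h2⟩ := tay_bal n (M + 1 + c) hρ
  refine ⟨C₂ + C₁ * C₂, by positivity, fun g t ht hg hgt hgA => ?_⟩
  have h3 := fun j => h2 (g j) t (hg j) (hgt j)
  have h4 : ∀ l, ∑ j, A l j * tay (M + 1 + c) (g j) ∈ idealOfVars (Fin n) ℂ ^ (M + 1 + c) := by
    intro l
    choose a ha0 ha using fun j => tay_poly_bdd (A l j) ρ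
    refine mem_pow_of_le (C := ∑ j, a j * (C₂ * t)) hρ fun w hw => ?_
    have h5 : eval w (∑ j, A l j * tay (M + 1 + c) (g j)) =
        ∑ j, eval w (A l j) * (eval w (tay (M + 1 + c) (g j)) - g j w) := by
      simp only [map_sum, map_mul, mul_sub, Finset.sum_sub_distrib, hgA l w hw, sub_zero]
    rw [h5, Finset.sum_mul]
    refine (norm_sum_le _ _).trans (Finset.sum_le_sum fun j _ => ?_)
    rw [norm_mul, norm_sub_rev, mul_assoc]
    exact mul_le_mul (ha j w hw) ((h3 j).2 w hw) (norm_nonneg _) (ha0 j)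
  obtain ⟨b, hb1, hb2, hb3⟩ := h1 (fun j => tay (M + 1 + c) (g j)) (C₂ * t) (by positivity)
    (fun j => by
      exact (Finset.sup_lt_iff (by simp)).mpr (degree_lt_tay _ (g j)))
    (fun j m => (h3 j).1 m) h4
  refine ⟨b, hb1, fun i m => (hb2 i m).trans ?_, fun j w hw => ?_⟩
  · have : 0 ≤ C₂ * t := by positivity
    nlinarith
  · have hsq : √(nq w) ≤ 1 := by
      rw [Real.sqrt_le_one]
      have : ρ ^ 2 ≤ 1 := by nlinarith
      linarith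
    have hs0 : 0 ≤ √(nq w) := Real.sqrt_nonneg _
    have hw1 : ‖w‖ ≤ √(nq w) := tay_norm_le_sqrt w
    have h5 := (h3 j).2 w hw
    have h6 := hb3 j w (hw1.trans hsq)
    have h7 : ‖g j w - eval w (φ j (∑ i, b i • e i))‖ ≤
        ‖g j w - eval w (tay (M + 1 + c) (g j))‖ +
          ‖eval w (φ j (∑ i, b i • e i)) - eval w (tay (M + 1 + c) (g j))‖ := by
      have h8 : g j w - eval w (φ j (∑ i, b i • e i)) = (g j w - eval w (tay (M + 1 + c) (g j))) -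
          (eval w (φ j (∑ i, b i • e i)) - eval w (tay (M + 1 + c) (g j))) := by ring
      rw [h8]
      exact norm_sub_le _ _
    refine h7.trans ?_
    have h9 : √(nq w) ^ (M + 1 + c) ≤ √(nq w) ^ M := pow_le_pow_of_le_one hs0 hsq (by omega)
    have h10 : ‖w‖ ^ (M + 1) ≤ √(nq w) ^ M := by
      refine (pow_le_pow_left₀ (norm_nonneg _) hw1 _).trans ?_
      exact pow_le_pow_of_le_one hs0 hsq (by omega)
    calc _ ≤ C₂ * t * √(nq w) ^ (M + 1 + c) + C₁ * (C₂ * t) * ‖w‖ ^ (M + 1) := add_le_add h5 h6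
      _ ≤ C₂ * t * √(nq w) ^ M + C₁ * (C₂ * t) * √(nq w) ^ M := by gcongr
      _ = _ := by ring

/-- the same for one radius -/
theorem approx_hol {k L s : ℕ} (φ : Fin k → B →ₗ[MvPolynomial (Fin n) ℂ] MvPolynomial (Fin n) ℂ)
    (hφ : Submodule.span (MvPolynomial (Fin n) ℂ) (Set.range φ) = ⊤) (e : Fin s → B)
    (he : Submodule.span (MvPolynomial (Fin n) ℂ) (Set.range e) = ⊤)
    (A : Fin L → Fin k → MvPolynomial (Fin n) ℂ)
    (hA : ∀ a : Fin k → MvPolynomial (Fin n) ℂ, ∑ j, a j • φ j = 0 →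
      a ∈ Submodule.span (MvPolynomial (Fin n) ℂ) (Set.range A)) (M : ℕ) {ρ : ℝ} (hρ : 0 < ρ)
    (hρ1 : ρ ≤ 1) :
    ∃ (C : ℝ) (Λ : Finset (Fin n →₀ ℕ)), 0 ≤ C ∧
      ∀ (g : Fin k → (Fin n → ℂ) → ℂ) (t : ℝ), 0 ≤ t →
      (∀ j, DifferentiableOn ℂ (g j) (bal n ρ)) →
      (∀ j w, nq w < ρ ^ 2 → ‖g j w‖ ≤ t) →
      (∀ l w, nq w < ρ ^ 2 → ∑ j, eval w (A l j) * g j w = 0) →
      ∃ b : Fin s → MvPolynomial (Fin n) ℂ, (∀ i, (b i).support ⊆ Λ) ∧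
        (∀ i m, ‖coeff m (b i)‖ ≤ C * t) ∧ ∀ j w, nq w < ρ ^ 2 →
          ‖g j w - eval w (φ j (∑ i, b i • e i))‖ ≤ C * t * √(nq w) ^ M := by
  obtain ⟨Λ, h⟩ := approx_hol_unif φ hφ e he A hA M
  obtain ⟨C, hC, h⟩ := h ρ hρ hρ1
  exact ⟨C, Λ, hC, h⟩

/-- the same with fixed elements of `B` -/
theorem approx_hol_fix [Algebra ℂ B] [IsScalarTower ℂ (MvPolynomial (Fin n) ℂ) B] {k L s : ℕ}
    (φ : Fin k → B →ₗ[MvPolynomial (Fin n) ℂ] MvPolynomial (Fin n) ℂ)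
    (hφ : Submodule.span (MvPolynomial (Fin n) ℂ) (Set.range φ) = ⊤) (e : Fin s → B)
    (he : Submodule.span (MvPolynomial (Fin n) ℂ) (Set.range e) = ⊤)
    (A : Fin L → Fin k → MvPolynomial (Fin n) ℂ)
    (hA : ∀ a : Fin k → MvPolynomial (Fin n) ℂ, ∑ j, a j • φ j = 0 →
      a ∈ Submodule.span (MvPolynomial (Fin n) ℂ) (Set.range A)) (M : ℕ) :
    ∃ (N : ℕ) (u : Fin N → B), ∀ ρ : ℝ, 0 < ρ → ρ ≤ 1 → ∃ C : ℝ, 0 ≤ C ∧
      ∀ (g : Fin k → (Fin n → ℂ) → ℂ) (t : ℝ), 0 ≤ t →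
      (∀ j, DifferentiableOn ℂ (g j) (bal n ρ)) →
      (∀ j w, nq w < ρ ^ 2 → ‖g j w‖ ≤ t) →
      (∀ l w, nq w < ρ ^ 2 → ∑ j, eval w (A l j) * g j w = 0) →
      ∃ c : Fin N → ℂ, (∀ i, ‖c i‖ ≤ C * t) ∧ ∀ j w, nq w < ρ ^ 2 →
          ‖g j w - eval w (φ j (∑ i, algebraMap ℂ B (c i) * u i))‖ ≤
            C * t * √(nq w) ^ M := by
  classical
  obtain ⟨Λ, h⟩ := approx_hol_unif φ hφ e he A hA M
  let ι := Fin s × Λ
  let E : ι ≃ Fin (Fintype.card ι) := Fintype.equivFin ι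
  let U : ι → B := fun x => (monomial (x.2 : Fin n →₀ ℕ) (1 : ℂ)) • e x.1
  refine ⟨Fintype.card ι, fun i => U (E.symm i), fun ρ hρ hρ1 => ?_⟩
  obtain ⟨C, hC, h⟩ := h ρ hρ hρ1
  refine ⟨C, hC, fun g t ht hg hgt hgA => ?_⟩
  obtain ⟨b, hb1, hb2, hb3⟩ := h g t ht hg hgt hgA
  refine ⟨fun i => coeff ((E.symm i).2 : Fin n →₀ ℕ) (b (E.symm i).1), fun i => hb2 _ _, ?_⟩
  have h1 : ∑ i, algebraMap ℂ B (coeff ((E.symm i).2 : Fin n →₀ ℕ) (b (E.symm i).1)) *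
      U (E.symm i) = ∑ i, b i • e i := by
    rw [E.symm.sum_comp (fun x : ι => algebraMap ℂ B (coeff (x.2 : Fin n →₀ ℕ) (b x.1)) * U x),
      Fintype.sum_prod_type]
    refine Finset.sum_congr rfl fun i _ => ?_
    have h2 : b i = ∑ m ∈ Λ, monomial m (coeff m (b i)) := by
      conv_lhs => rw [as_sum (b i)]
      refine Finset.sum_subset (hb1 i) fun m _ hm => ?_
      rw [notMem_support_iff.mp hm, monomial_zero]
    conv_rhs => rw [h2, Finset.sum_smul, ← Finset.sum_coe_sort]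
    refine Finset.sum_congr rfl fun m _ => ?_
    have h3 : (monomial (m : Fin n →₀ ℕ)) (coeff (m : Fin n →₀ ℕ) (b i)) =
        MvPolynomial.C (coeff (m : Fin n →₀ ℕ) (b i)) * monomial (m : Fin n →₀ ℕ) (1 : ℂ) := by
      rw [C_mul_monomial, mul_one]
    rw [h3, mul_smul, Algebra.smul_def (MvPolynomial.C _), ← algebraMap_eq, ← IsScalarTower.algebraMap_apply]
  intro j w hw
  have h4 := hb3 j w hw
  rw [← h1] at h4
  exact h4

end

end Pool.Agent.Odp3
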