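import Pool.Agent.Odp3.Defs

open scoped ContDiff Topology ENNReal NNReal WithZero
open Set MeasureTheory Filter MvPolynomial Pool.Agent.ODP

namespace Pool.Agent.Odp3

theorem ext_norm_sq_le {h : ℂ → ℂ} {U : Set ℂ}
    (hh : DifferentiableOn ℂ h U) (hb : Metric.closedBall 0 1 ⊆ U) :
    ‖h 0‖ₑ ^ 2 ≤ ENNReal.ofReal ((2 * Real.pi)⁻¹) *
      ∫⁻ θ in Ioc 0 (2 * Real.pi), ‖h (circleMap 0 1 θ)‖ₑ ^ 2 := by
  have h1 : DiffContOnCl ℂ (fun z => h z ^ 2) (Metric.ball 0 |(1 : ℝ)|) := by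
    rw [abs_one]
    refine DifferentiableOn.diffContOnCl_ball (U := Metric.closedBall 0 1) ?_ subset_rfl
    exact (hh.mono hb).pow 2
  have h2 := h1.circleAverage
  have h3 : ‖h 0‖ₑ ^ 2 = ‖(h 0) ^ 2‖ₑ := by rw [enorm_pow]
  rw [h3, ← h2, Real.circleAverage_def, enorm_smul,
    intervalIntegral.integral_of_le Real.two_pi_pos.le]
  have h4 : ‖(2 * Real.pi)⁻¹‖ₑ = ENNReal.ofReal ((2 * Real.pi)⁻¹) := by
    rw [← ofReal_norm, Real.norm_of_nonneg (by positivity)]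
  rw [h4]
  gcongr
  refine (enorm_integral_le_lintegral_enorm _).trans (le_of_eq ?_)
  simp only [enorm_pow]

theorem ext_meas_ind {E : Type*} [TopologicalSpace E] [MeasurableSpace E] [BorelSpace E]
    {S : Set E} (hS : IsOpen S) {h : E → ℂ} (hh : ContinuousOn h S) :
    Measurable (S.indicator fun z => ‖h z‖ₑ ^ 2) := by
  classical
  have h1 : ContinuousOn (fun z => ‖h z‖ₑ ^ 2) S :=
    (ENNReal.continuous_pow 2).comp_continuousOn (continuous_enorm.comp_continuousOn hh)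
  have := h1.measurable_piecewise (g := fun _ => (0 : ℝ≥0∞)) continuousOn_const hS.measurableSet
  rwa [← piecewise_eq_indicator]

theorem ext_submean {E : Type*} [NormedAddCommGroup E] [NormedSpace ℂ E] [MeasurableSpace E]
    [BorelSpace E] [SecondCountableTopology E] {μ : Measure E} [SFinite μ]
    (hrot : ∀ θ : ℝ, MeasurePreserving (fun z : E => circleMap 0 1 θ • z) μ μ)
    {S : Set E} (hS : IsOpen S) (hbal : ∀ z ∈ S, ∀ t : ℂ, ‖t‖ ≤ 1 → t • z ∈ S) {h : E → ℂ}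
    (hh : DifferentiableOn ℂ h S) : ‖h 0‖ₑ ^ 2 * μ S ≤ ∫⁻ z in S, ‖h z‖ₑ ^ 2 ∂μ := by
  classical
  set G : E → ℝ≥0∞ := S.indicator fun z => ‖h z‖ₑ ^ 2 with hG
  have hGm : Measurable G := ext_meas_ind hS hh.continuousOn
  have hrotS : ∀ θ : ℝ, ∀ z ∈ S, circleMap 0 1 θ • z ∈ S := fun θ z hz =>
    hbal z hz _ (by simp)
  have key : ∀ z ∈ S, ‖h 0‖ₑ ^ 2 ≤ ENNReal.ofReal ((2 * Real.pi)⁻¹) *
      ∫⁻ θ in Ioc 0 (2 * Real.pi), G (circleMap 0 1 θ • z) := by
    intro z hz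
    have h1 : DifferentiableOn ℂ (fun t : ℂ => h (t • z)) {t : ℂ | t • z ∈ S} := by
      refine hh.comp (g := h) (f := fun t : ℂ => t • z) ?_ (fun t ht => ht)
      exact (differentiable_id.smul_const z).differentiableOn
    have h2 := ext_norm_sq_le h1 (fun t ht => hbal z hz t (by simpa using ht))
    simp only [zero_smul] at h2
    refine h2.trans (le_of_eq ?_)
    congr 1
    refine lintegral_congr fun θ => ?_
    rw [hG, indicator_of_mem (hrotS θ z hz)]
  have hGS : ∫⁻ z in S, ‖h z‖ₑ ^ 2 ∂μ = ∫⁻ z, G z ∂μ := by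
    rw [hG, lintegral_indicator hS.measurableSet]
  calc ‖h 0‖ₑ ^ 2 * μ S = ∫⁻ z in S, ‖h 0‖ₑ ^ 2 ∂μ := by rw [setLIntegral_const]
    _ ≤ ∫⁻ z in S, (ENNReal.ofReal ((2 * Real.pi)⁻¹) *
      ∫⁻ θ in Ioc 0 (2 * Real.pi), G (circleMap 0 1 θ • z)) ∂μ :=
        setLIntegral_mono' hS.measurableSet key
    _ ≤ ∫⁻ z, (ENNReal.ofReal ((2 * Real.pi)⁻¹) *
      ∫⁻ θ in Ioc 0 (2 * Real.pi), G (circleMap 0 1 θ • z)) ∂μ := setLIntegral_le_lintegral _ _
    _ = ENNReal.ofReal ((2 * Real.pi)⁻¹) * ∫⁻ z, 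
      (∫⁻ θ in Ioc 0 (2 * Real.pi), G (circleMap 0 1 θ • z)) ∂μ := by
        rw [lintegral_const_mul]
        refine Measurable.lintegral_prod_right' (f := fun p : E × ℝ => G (circleMap 0 1 p.2 • p.1)) ?_
        exact hGm.comp (by fun_prop)
    _ = ENNReal.ofReal ((2 * Real.pi)⁻¹) * ∫⁻ θ in Ioc 0 (2 * Real.pi), 
      (∫⁻ z, G (circleMap 0 1 θ • z) ∂μ) := by
        rw [lintegral_lintegral_swap]
        refine (hGm.comp ?_).aemeasurable
        fun_prop
    _ = ENNReal.ofReal ((2 * Real.pi)⁻¹) * ∫⁻ _ in Ioc 0 (2 * Real.pi), 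
      (∫⁻ z, G z ∂μ) := by
        congr 1
        refine lintegral_congr fun θ => ?_
        exact (hrot θ).lintegral_comp hGm
    _ = ∫⁻ z, G z ∂μ := by
        rw [setLIntegral_const, mul_comm (∫⁻ z, G z ∂μ), ← mul_assoc, Real.volume_Ioc,
          ← ENNReal.ofReal_mul (by positivity)]
        rw [sub_zero, inv_mul_cancel₀ (by positivity), ENNReal.ofReal_one, one_mul]
    _ = _ := hGS.symm

theorem ext_rot_pi (n : ℕ) (θ : ℝ) :
    MeasurePreserving (fun z : Fin n → ℂ => circleMap 0 1 θ • z) volume volume := by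
  have h1 : MeasurePreserving (fun z : ℂ => circleMap 0 1 θ * z) volume volume := by
    have h2 := (rotation (Circle.exp θ)).measurePreserving
    have h3 : (fun z : ℂ => circleMap 0 1 θ * z) = ⇑(rotation (Circle.exp θ)) := by
      funext z
      rw [rotation_apply, Circle.coe_exp]
      simp [circleMap]
    rw [h3]
    exact h2
  exact volume_preserving_pi fun _ => h1


theorem ext_nq_smul {n : ℕ} (t : ℂ) (w : Fin n → ℂ) : nq (t • w) = ‖t‖ ^ 2 * nq w := by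
  simp only [nq, Pi.smul_apply, smul_eq_mul, norm_mul, mul_pow, Finset.mul_sum]

theorem ext_nq_eq {n : ℕ} (w : Fin n → ℂ) : nq w = ‖(WithLp.toLp 2 w : EuclideanSpace ℂ (Fin n))‖ ^ 2 := by
  rw [EuclideanSpace.norm_sq_eq]
  rfl

theorem ext_le_of_sq {a b : ℝ} (h : a ^ 2 ≤ b ^ 2) (hb : 0 ≤ b) : a ≤ b := by
  nlinarith

theorem ext_nq_cont {n : ℕ} : Continuous (nq (n := n)) := by
  unfold nq
  fun_prop

theorem ext_bal_open (n : ℕ) (ρ : ℝ) : IsOpen (bal n ρ) :=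
  isOpen_lt ext_nq_cont continuous_const

theorem ext_nq_add {n : ℕ} {a b : ℝ} (ha : 0 ≤ a) (hb : 0 ≤ b) {w z : Fin n → ℂ}
    (hw : nq w ≤ a ^ 2) (hz : nq z < b ^ 2) : nq (w + z) < (a + b) ^ 2 := by
  rw [ext_nq_eq] at *
  have h1 := norm_add_le (WithLp.toLp 2 w : EuclideanSpace ℂ (Fin n)) (WithLp.toLp 2 z)
  have h2 : ‖(WithLp.toLp 2 w : EuclideanSpace ℂ (Fin n))‖ ≤ a :=
    ext_le_of_sq hw ha
  have h3 : ‖(WithLp.toLp 2 z : EuclideanSpace ℂ (Fin n))‖ < b := by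
    exact lt_of_pow_lt_pow_left₀ 2 hb hz
  rw [WithLp.toLp_add]
  exact pow_lt_pow_left₀ (by linarith) (norm_nonneg _) two_ne_zero

theorem ext_bal_bdd (n : ℕ) (ρ : ℝ) : bal n ρ ⊆ Metric.closedBall 0 |ρ| := by
  intro w hw
  rw [mem_closedBall_zero_iff, pi_norm_le_iff_of_nonneg (abs_nonneg _)]
  intro i
  refine ext_le_of_sq ?_ (abs_nonneg _)
  rw [sq_abs]
  have h1 : ‖w i‖ ^ 2 ≤ nq w := Finset.single_le_sum (f := fun j => ‖w j‖ ^ 2)
    (fun j _ => by positivity) (Finset.mem_univ i)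
  exact h1.trans (le_of_lt hw)

theorem ext_sup_le_L2 (n : ℕ) {ρ' ρ : ℝ} (h0 : 0 < ρ') (h : ρ' < ρ) : ∃ C : ℝ≥0, ∀ g :
    (Fin n → ℂ) → ℂ, DifferentiableOn ℂ g (bal n ρ) → ∀ w, nq w ≤ ρ' ^ 2 →
      ‖g w‖ₑ ^ 2 ≤ C * ∫⁻ w in bal n ρ, ‖g w‖ₑ ^ 2 := by
  set S := bal n (ρ - ρ') with hS
  have hSo : IsOpen S := ext_bal_open _ _
  have h0S : (0 : Fin n → ℂ) ∈ S := by
    show nq 0 < (ρ - ρ') ^ 2
    have : nq (0 : Fin n → ℂ) = 0 := by simp [nq]
    rw [this]
    have : 0 < ρ - ρ' := by linarith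
    positivity
  have hSne : volume S ≠ 0 := (hSo.measure_pos volume ⟨0, h0S⟩).ne'
  have hSt : volume S ≠ ⊤ := by
    refine ne_top_of_le_ne_top ?_ (measure_mono (ext_bal_bdd n (ρ - ρ')))
    exact measure_closedBall_lt_top.ne
  refine ⟨(volume S)⁻¹.toNNReal, fun g hg w hw => ?_⟩
  rw [ENNReal.coe_toNNReal (ENNReal.inv_ne_top.2 hSne)]
  have hbal : ∀ z ∈ S, ∀ t : ℂ, ‖t‖ ≤ 1 → t • z ∈ S := by
    intro z hz t ht
    show nq (t • z) < (ρ - ρ') ^ 2
    rw [ext_nq_smul]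
    have hz' : nq z < (ρ - ρ') ^ 2 := hz
    have h1 : ‖t‖ ^ 2 ≤ 1 := pow_le_one₀ (norm_nonneg _) ht
    have h2 : 0 ≤ nq z := by unfold nq; positivity
    nlinarith
  have hmem : ∀ z ∈ S, w + z ∈ bal n ρ := by
    intro z hz
    have := ext_nq_add h0.le (by linarith : 0 ≤ ρ - ρ') hw hz
    show nq (w + z) < ρ ^ 2
    rwa [add_sub_cancel] at this
  have hd : DifferentiableOn ℂ (fun z => g (w + z)) S :=
    hg.comp (g := g) (f := fun z => w + z) (by fun_prop) hmem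
  have h3 := ext_submean (ext_rot_pi n) hSo hbal hd
  rw [add_zero] at h3
  have h4 : ∫⁻ z in S, ‖g (w + z)‖ₑ ^ 2 ≤ ∫⁻ w in bal n ρ, ‖g w‖ₑ ^ 2 := by
    rw [← lintegral_indicator hSo.measurableSet, ← lintegral_indicator (ext_bal_open n ρ).measurableSet,
      ← lintegral_add_left_eq_self ((bal n ρ).indicator fun w => ‖g w‖ₑ ^ 2) w]
    refine lintegral_mono fun z => ?_
    by_cases hz : z ∈ S
    · rw [indicator_of_mem hz, indicator_of_mem (hmem z hz)]
    · rw [indicator_of_notMem hz]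
      exact bot_le
  have h5 : ‖g w‖ₑ ^ 2 * volume S ≤ ∫⁻ w in bal n ρ, ‖g w‖ₑ ^ 2 := h3.trans h4
  calc ‖g w‖ₑ ^ 2 = (volume S)⁻¹ * (‖g w‖ₑ ^ 2 * volume S) := by
        rw [mul_comm (‖g w‖ₑ ^ 2), ← mul_assoc, ENNReal.inv_mul_cancel hSne hSt, one_mul]
    _ ≤ _ := by gcongr

theorem ext_submean_ball {φ : ℂ → ℂ} {z : ℂ} {s : ℝ} (hd : DifferentiableOn ℂ φ (Metric.ball z s)) :
    ‖φ z‖ₑ ^ 2 * volume (Metric.ball (0 : ℂ) s) ≤ ∫⁻ w in Metric.ball z s, ‖φ w‖ₑ ^ 2 := by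
  have hbal : ∀ w ∈ Metric.ball (0 : ℂ) s, ∀ t : ℂ, ‖t‖ ≤ 1 → t • w ∈ Metric.ball (0 : ℂ) s := by
    intro w hw t ht
    rw [mem_ball_zero_iff] at *
    rw [norm_smul]
    calc ‖t‖ * ‖w‖ ≤ 1 * ‖w‖ := by gcongr
      _ < s := by simpa using hw
  have hmem : ∀ w ∈ Metric.ball (0 : ℂ) s, z + w ∈ Metric.ball z s := by
    intro w hw
    rw [mem_ball_zero_iff] at hw
    rw [Metric.mem_ball, dist_eq_norm]
    simpa using hw
  have h1 : DifferentiableOn ℂ (fun w => φ (z + w)) (Metric.ball 0 s) :=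
    hd.comp (g := φ) (f := fun w => z + w) (by fun_prop) hmem
  have h2 : ∀ θ : ℝ, MeasurePreserving (fun z : ℂ => circleMap 0 1 θ • z) volume volume := by
    intro θ
    have h2 := (rotation (Circle.exp θ)).measurePreserving
    have h3 : (fun z : ℂ => circleMap 0 1 θ • z) = ⇑(rotation (Circle.exp θ)) := by
      funext z
      rw [rotation_apply, Circle.coe_exp]
      simp [circleMap]
    rw [h3]
    exact h2
  have h3 := ext_submean h2 Metric.isOpen_ball hbal h1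
  rw [add_zero] at h3
  refine h3.trans ?_
  rw [← lintegral_indicator measurableSet_ball, ← lintegral_indicator measurableSet_ball,
    ← lintegral_add_left_eq_self ((Metric.ball z s).indicator fun w => ‖φ w‖ₑ ^ 2) z]
  refine lintegral_mono fun w => ?_
  by_cases hw : w ∈ Metric.ball (0 : ℂ) s
  · rw [indicator_of_mem hw, indicator_of_mem (hmem w hw)]
  · rw [indicator_of_notMem hw]
    exact bot_le

theorem ext_removable {φ : ℂ → ℂ} {c : ℂ} {R : ℝ} (hR : 0 < R)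
    (hd : DifferentiableOn ℂ φ (Metric.ball c R \ {c}))
    (h2 : ∫⁻ z in Metric.ball c R \ {c}, ‖φ z‖ₑ ^ 2 ≠ ⊤) :
    (fun z => φ z - φ c) =o[𝓝[≠] c] fun z => (z - c)⁻¹ := by
  have hA : Tendsto (fun z : ℂ => ∫⁻ w in Metric.ball c (2 * ‖z - c‖),
      ‖φ w‖ₑ ^ 2 ∂(volume.restrict (Metric.ball c R \ {c}))) (𝓝 c) (𝓝 0) := by
    refine tendsto_setLIntegral_zero h2 ?_
    have h3 : Tendsto (fun z : ℂ => volume (Metric.ball c (2 * ‖z - c‖))) (𝓝 c) (𝓝 0) := by
      simp only [Complex.volume_ball]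
      have : Continuous fun z : ℂ => ENNReal.ofReal (2 * ‖z - c‖) ^ 2 * NNReal.pi := by
        refine ENNReal.continuous_mul_const ENNReal.coe_ne_top |>.comp ?_
        exact (ENNReal.continuous_pow 2).comp (ENNReal.continuous_ofReal.comp (by fun_prop))
      have h4 := this.tendsto c
      simpa using h4
    refine tendsto_of_tendsto_of_tendsto_of_le_of_le tendsto_const_nhds h3 (fun _ => bot_le) ?_
    intro z
    exact Measure.restrict_le_self _
  have h1 : (fun z => φ z) =o[𝓝[≠] c] fun z => (z - c)⁻¹ := by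
    rw [Asymptotics.isLittleO_iff]
    intro ε hε
    have h3 : ∀ᶠ z in 𝓝 c, ∫⁻ w in Metric.ball c (2 * ‖z - c‖),
      ‖φ w‖ₑ ^ 2 ∂(volume.restrict (Metric.ball c R \ {c})) <
        ENNReal.ofReal (ε / 2) ^ 2 * NNReal.pi := by
      refine hA.eventually_lt_const ?_
      have : 0 < ENNReal.ofReal (ε / 2) := by simpa using hε
      have hpi : (0 : ℝ≥0∞) < NNReal.pi := by exact_mod_cast NNReal.pi_pos
      exact ENNReal.mul_pos (pow_ne_zero 2 this.ne') hpi.ne'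
    have h4 : ∀ᶠ z in 𝓝 c, 2 * ‖z - c‖ < R := by
      have : Continuous fun z : ℂ => 2 * ‖z - c‖ := by fun_prop
      refine this.continuousAt.eventually_lt_const (u := R) ?_
      simpa using hR
    filter_upwards [nhdsWithin_le_nhds h3, nhdsWithin_le_nhds h4, self_mem_nhdsWithin] with z hz hz' hne
    have hne' : z - c ≠ 0 := sub_ne_zero.2 hne
    have hpos : 0 < ‖z - c‖ := norm_pos_iff.2 hne'
    set s := ‖z - c‖ / 2 with hs
    have hs0 : 0 < s := by positivity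
    have hsub : Metric.ball z s ⊆ Metric.ball c (2 * ‖z - c‖) ∩ (Metric.ball c R \ {c}) := by
      intro w hw
      rw [Metric.mem_ball, dist_eq_norm] at hw
      have e1 : ‖w - c‖ < 2 * ‖z - c‖ := by
        calc ‖w - c‖ = ‖(w - z) + (z - c)‖ := by congr 1; ring
          _ ≤ ‖w - z‖ + ‖z - c‖ := norm_add_le _ _
          _ < 2 * ‖z - c‖ := by linarith
      refine ⟨by rwa [Metric.mem_ball, dist_eq_norm], ?_, ?_⟩
      · rw [Metric.mem_ball, dist_eq_norm]
        linarith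
      · rintro rfl
        rw [norm_sub_rev] at hw
        linarith
    have h5 := ext_submean_ball (hd.mono (hsub.trans inter_subset_right))
    have h6 : ∫⁻ w in Metric.ball z s, ‖φ w‖ₑ ^ 2 ≤ ∫⁻ w in Metric.ball c (2 * ‖z - c‖),
      ‖φ w‖ₑ ^ 2 ∂(volume.restrict (Metric.ball c R \ {c})) := by
      rw [Measure.restrict_restrict measurableSet_ball]
      exact lintegral_mono_set hsub
    have h7 := h5.trans (h6.trans hz.le)
    rw [Complex.volume_ball, ← mul_assoc, ← mul_pow] at h7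
    have hpi0 : (NNReal.pi : ℝ≥0∞) ≠ 0 := by exact_mod_cast NNReal.pi_pos.ne'
    have h8 : (‖φ z‖ₑ * ENNReal.ofReal s) ^ 2 ≤ ENNReal.ofReal (ε / 2) ^ 2 :=
      (ENNReal.mul_le_mul_iff_left hpi0 ENNReal.coe_ne_top).1 h7
    have h9 : ‖φ z‖ₑ * ENNReal.ofReal s ≤ ENNReal.ofReal (ε / 2) :=
      (ENNReal.pow_le_pow_left_iff two_ne_zero).1 h8
    rw [← ofReal_norm, ← ENNReal.ofReal_mul (norm_nonneg _),
      ENNReal.ofReal_le_ofReal_iff (by positivity)] at h9
    rw [norm_inv, ← div_eq_mul_inv, le_div_iff₀ hpos]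
    rw [hs] at h9
    linarith
  have h3 : (fun _ : ℂ => φ c) =o[𝓝[≠] c] fun z => (z - c)⁻¹ := by
    rw [Asymptotics.isLittleO_iff]
    intro ε hε
    have h4 : ∀ᶠ z in 𝓝 c, ‖φ c‖ * ‖z - c‖ < ε := by
      have : Continuous fun z : ℂ => ‖φ c‖ * ‖z - c‖ := by fun_prop
      refine this.continuousAt.eventually_lt_const (u := ε) ?_
      simpa using hε
    filter_upwards [nhdsWithin_le_nhds h4, self_mem_nhdsWithin] with z hz hne
    have hpos : 0 < ‖z - c‖ := norm_pos_iff.2 (sub_ne_zero.2 hne)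
    rw [norm_inv, ← div_eq_mul_inv, le_div_iff₀ hpos]
    exact hz.le
  exact h1.sub h3

theorem ext_slice {q φ : ℂ → ℂ} {U : Set ℂ} {r : ℝ} (hr : 0 < r) (hU : IsOpen U)
    (hUr : Metric.closedBall 0 r ⊆ U) (hq : DifferentiableOn ℂ q U)
    (hq' : ∀ t ∈ Metric.sphere (0 : ℂ) r, q t ≠ 0)
    (hφ : DifferentiableOn ℂ φ {t | t ∈ U ∧ q t ≠ 0})
    (h2 : ∫⁻ t in {t | t ∈ Metric.ball (0 : ℂ) r ∧ q t ≠ 0}, ‖φ t‖ₑ ^ 2 ≠ ⊤) (h0 : q 0 ≠ 0) :
    Real.circleAverage φ 0 r = φ 0 := by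
  classical
  set ψ : ℂ → ℂ := fun t => if q t ≠ 0 then φ t else limUnder (𝓝[≠] t) φ with hψ
  have hΩ : IsOpen {t | t ∈ U ∧ q t ≠ 0} := by
    have := hq.continuousOn.isOpen_inter_preimage hU (isOpen_compl_singleton (x := (0 : ℂ)))
    exact this
  have hdiff : ∀ t ∈ Metric.closedBall (0 : ℂ) r, DifferentiableAt ℂ ψ t := by
    intro t ht
    by_cases hqt : q t = 0
    · -- a zero
      have htb : t ∈ Metric.ball (0 : ℂ) r := by
        rw [mem_closedBall_zero_iff] at ht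
        rw [mem_ball_zero_iff]
        refine lt_of_le_of_ne ht fun h => hq' t (by rwa [mem_sphere_zero_iff_norm]) hqt
      have hqa : AnalyticOnNhd ℂ q (Metric.ball 0 r) :=
        (hq.mono (Metric.ball_subset_closedBall.trans hUr)).analyticOnNhd Metric.isOpen_ball
      have hiso : ∀ᶠ s in 𝓝[≠] t, q s ≠ 0 := by
        by_contra hcon
        have h3 : ∃ᶠ s in 𝓝[≠] t, q s = 0 := by
          rw [Filter.Frequently]
          exact hcon
        have h4 := hqa.eqOn_zero_of_preconnected_of_frequently_eq_zero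
          (convex_ball (0 : ℂ) r).isPreconnected htb h3
        exact h0 (h4 (Metric.mem_ball_self hr))
      rw [eventually_nhdsWithin_iff, Metric.eventually_nhds_iff_ball] at hiso
      obtain ⟨ε, hε, hiso⟩ := hiso
      obtain ⟨ε', hε', hsub⟩ := Metric.isOpen_ball.mem_nhds htb |> Metric.mem_nhds_iff.1
      set R := min ε ε' with hR
      have hR0 : 0 < R := lt_min hε hε'
      have hsub1 : Metric.ball t R \ {t} ⊆ {t | t ∈ Metric.ball (0 : ℂ) r ∧ q t ≠ 0} := by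
        intro s hs
        exact ⟨hsub (Metric.ball_subset_ball (min_le_right _ _) hs.1),
          hiso s (Metric.ball_subset_ball (min_le_left _ _) hs.1) hs.2⟩
      have hd : DifferentiableOn ℂ φ (Metric.ball t R \ {t}) :=
        hφ.mono fun s hs => ⟨hUr (Metric.ball_subset_closedBall (hsub1 hs).1), (hsub1 hs).2⟩
      have hL : ∫⁻ z in Metric.ball t R \ {t}, ‖φ z‖ₑ ^ 2 ≠ ⊤ :=
        ne_top_of_le_ne_top h2 (lintegral_mono_set hsub1)
      have h5 := Complex.differentiableOn_update_limUnder_of_isLittleO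
        (Metric.ball_mem_nhds t hR0) hd (ext_removable hR0 hd hL)
      have h6 := h5.differentiableAt (Metric.ball_mem_nhds t hR0)
      refine h6.congr_of_eventuallyEq ?_
      filter_upwards [Metric.ball_mem_nhds t hR0] with s hs
      by_cases hst : s = t
      · subst hst
        simp [hψ, hqt]
      · rw [Function.update_of_ne hst]
        simp only [hψ]
        rw [if_pos (hsub1 ⟨hs, hst⟩).2]
    · have h3 : {t | t ∈ U ∧ q t ≠ 0} ∈ 𝓝 t := hΩ.mem_nhds ⟨hUr ht, hqt⟩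
      refine (hφ.differentiableAt h3).congr_of_eventuallyEq ?_
      filter_upwards [h3] with s hs
      simp only [hψ]
      rw [if_pos hs.2]
  have h3 : DiffContOnCl ℂ ψ (Metric.ball 0 |r|) := by
    rw [abs_of_pos hr]
    exact DifferentiableOn.diffContOnCl_ball (U := Metric.closedBall 0 r)
      (fun t ht => (hdiff t ht).differentiableWithinAt) subset_rfl
  have h4 := h3.circleAverage
  have h5 : ψ 0 = φ 0 := by simp [hψ, h0]
  rw [← h5, ← h4]
  refine Real.circleAverage_congr_sphere fun t ht => ?_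
  rw [abs_of_pos hr] at ht
  simp only [hψ]
  rw [if_pos (hq' t ht)]

theorem ext_avg_diff {n : ℕ} {f : (Fin n → ℂ) → ℂ} {Ω : Set (Fin n → ℂ)} (hΩ : IsOpen Ω)
    (hf : DifferentiableOn ℂ f Ω) {p v : Fin n → ℂ} {r δ : ℝ} (hr : 0 < r) (hδ : 0 < δ)
    (h : ∀ w ∈ Metric.closedBall p (2 * δ), ∀ t ∈ Metric.sphere (0 : ℂ) r, w + t • v ∈ Ω) :
    DifferentiableOn ℂ (fun w => Real.circleAverage (fun t => f (w + t • v)) 0 r)
      (Metric.ball p δ) := by
  have hcm : ∀ θ : ℝ, circleMap 0 r θ ∈ Metric.sphere (0 : ℂ) r := fun θ => by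
    simp [abs_of_pos hr]
  -- bound
  obtain ⟨M, hM⟩ : ∃ M : ℝ, ∀ w ∈ Metric.closedBall p (2 * δ), ∀ t ∈ Metric.sphere (0 : ℂ) r,
      ‖f (w + t • v)‖ ≤ M := by
    have hK : IsCompact (Metric.closedBall p (2 * δ) ×ˢ Metric.sphere (0 : ℂ) r) :=
      (isCompact_closedBall _ _).prod (isCompact_sphere _ _)
    have hc : ContinuousOn (fun x : (Fin n → ℂ) × ℂ => f (x.1 + x.2 • v))
        (Metric.closedBall p (2 * δ) ×ˢ Metric.sphere (0 : ℂ) r) :=
      hf.continuousOn.comp (by fun_prop) fun x hx => h x.1 hx.1 x.2 hx.2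
    obtain ⟨M, hM⟩ := hK.exists_bound_of_continuousOn hc
    exact ⟨M, fun w hw t ht => hM (w, t) ⟨hw, ht⟩⟩
  have hd : ∀ x ∈ Metric.ball p δ, ∀ θ : ℝ, ‖fderiv ℂ f (x + circleMap 0 r θ • v)‖ ≤ 2 * M / δ := by
    intro x hx θ
    have hmem : ∀ y ∈ Metric.ball (x + circleMap 0 r θ • v) δ, ∃ w ∈ Metric.closedBall p (2 * δ),
        y = w + circleMap 0 r θ • v := by
      intro y hy
      refine ⟨y - circleMap 0 r θ • v, ?_, by simp⟩
      rw [Metric.mem_ball] at hx hy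
      rw [Metric.mem_closedBall]
      calc dist (y - circleMap 0 r θ • v) p ≤ dist (y - circleMap 0 r θ • v) x + dist x p :=
            dist_triangle _ _ _
        _ ≤ 2 * δ := by
            have : dist (y - circleMap 0 r θ • v) x = dist y (x + circleMap 0 r θ • v) := by
              rw [dist_eq_norm, dist_eq_norm]
              congr 1
              abel
            rw [this]
            linarith
    refine Complex.norm_fderiv_le_div_of_mapsTo_ball (R₁ := δ) (R₂ := 2 * M) ?_ ?_ hδ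
    · refine hf.mono fun y hy => ?_
      obtain ⟨w, hw, rfl⟩ := hmem y hy
      exact h w hw _ (hcm θ)
    · intro y hy
      obtain ⟨w, hw, rfl⟩ := hmem y hy
      rw [Metric.mem_closedBall, dist_eq_norm]
      have e1 := hM w hw _ (hcm θ)
      have e2 := hM x (Metric.ball_subset_closedBall
        (Metric.ball_subset_ball (by linarith) hx)) _ (hcm θ)
      calc _ ≤ _ := norm_sub_le _ _
        _ ≤ 2 * M := by linarith
  intro w hw
  refine DifferentiableAt.differentiableWithinAt ?_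
  simp only [Real.circleAverage_def]
  refine DifferentiableAt.const_smul ?_ _
  have hcl : Metric.ball p δ ⊆ Metric.closedBall p (2 * δ) :=
    (Metric.ball_subset_ball (by linarith)).trans Metric.ball_subset_closedBall
  have hcont : ∀ x ∈ Metric.ball p δ, Continuous fun θ : ℝ => f (x + circleMap 0 r θ • v) := by
    intro x hx
    rw [← continuousOn_univ]
    refine hf.continuousOn.comp (g := f) (f := fun θ : ℝ => x + circleMap 0 r θ • v) ?_ ?_
    · exact (by fun_prop : Continuous fun θ : ℝ => x + circleMap 0 r θ • v).continuousOn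
    · intro θ _
      exact h x (hcl hx) _ (hcm θ)
  refine (intervalIntegral.hasFDerivAt_integral_of_dominated_of_fderiv_le
    (F := fun x θ => f (x + circleMap 0 r θ • v))
    (F' := fun x θ => fderiv ℂ f (x + circleMap 0 r θ • v)) (bound := fun _ => 2 * M / δ)
    (Metric.isOpen_ball.mem_nhds hw) ?_ ?_ ?_ ?_ ?_ ?_).differentiableAt
  · filter_upwards [Metric.isOpen_ball.mem_nhds hw] with x hx
    exact (hcont x hx).aestronglyMeasurable
  · exact (hcont w hw).intervalIntegrable _ _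
  · have h1 : Measurable fun θ : ℝ => fderiv ℂ f (w + circleMap 0 r θ • v) :=
      (measurable_fderiv ℂ f).comp (by fun_prop)
    exact h1.aestronglyMeasurable
  · exact ae_of_all _ fun θ _ x hx => hd x hx θ
  · exact intervalIntegrable_const
  · refine ae_of_all _ fun θ _ x hx => ?_
    have h1 : DifferentiableAt ℂ f (x + circleMap 0 r θ • v) :=
      hf.differentiableAt (hΩ.mem_nhds (h x (hcl hx) _ (hcm θ)))
    have h2 := h1.hasFDerivAt.comp x (f := fun y => y + circleMap 0 r θ • v)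
      ((hasFDerivAt_id x).add_const _)
    rw [ContinuousLinearMap.comp_id] at h2
    exact h2

theorem ext_bal_convex (n : ℕ) (ρ : ℝ) : Convex ℝ (bal n ρ) := by
  have h1 : bal n ρ = (WithLp.linearEquiv 2 ℝ (Fin n → ℂ)).symm.toLinearMap ⁻¹'
      (Metric.ball (0 : EuclideanSpace ℂ (Fin n)) |ρ|) := by
    ext w
    show nq w < ρ ^ 2 ↔ _
    rw [ext_nq_eq, Set.mem_preimage, mem_ball_zero_iff, ← sq_abs ρ]
    exact sq_lt_sq₀ (norm_nonneg _) (abs_nonneg _)
  rw [h1]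
  exact (convex_ball _ _).linear_preimage _

theorem ext_line {n : ℕ} {ρ : ℝ} {Q : (Fin n → ℂ) → ℂ} (hQ : DifferentiableOn ℂ Q (bal n ρ))
    (hne : ∃ w ∈ bal n ρ, Q w ≠ 0) {p : Fin n → ℂ} (hp : p ∈ bal n ρ) :
    ∃ v : Fin n → ℂ, ∀ᶠ t in 𝓝[≠] (0 : ℂ), Q (p + t • v) ≠ 0 := by
  obtain ⟨w, hw, hQw⟩ := hne
  refine ⟨w - p, ?_⟩
  by_contra hcon
  have h3 : ∃ᶠ t in 𝓝[≠] (0 : ℂ), Q (p + t • (w - p)) = 0 := by
    rw [Filter.Frequently]
    exact hcon
  set U : Set ℂ := {t | p + t • (w - p) ∈ bal n ρ} with hU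
  have hUo : IsOpen U := (ext_bal_open n ρ).preimage (by fun_prop)
  have hUc : Convex ℝ U := by
    intro t ht s hs a b ha hb hab
    have h1 := ext_bal_convex n ρ ht hs ha hb hab
    have h2 : a • (p + t • (w - p)) + b • (p + s • (w - p)) = p + (a • t + b • s) • (w - p) := by
      have h4 : p = (a + b) • p := by rw [hab, one_smul]
      nth_rewrite 5 [h4]
      rw [smul_add, smul_add, add_smul, add_smul, smul_assoc, smul_assoc]
      abel
    rw [h2] at h1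
    exact h1
  have hd : DifferentiableOn ℂ (fun t : ℂ => Q (p + t • (w - p))) U :=
    hQ.comp (g := Q) (f := fun t : ℂ => p + t • (w - p))
      (by fun_prop) fun t ht => ht
  have h4 := (hd.analyticOnNhd hUo).eqOn_zero_of_preconnected_of_frequently_eq_zero
    hUc.isPreconnected (z₀ := 0) (by simpa [hU] using hp) h3
  have h5 := h4 (x := 1) (by simpa [hU] using hw)
  simp only [one_smul, add_sub_cancel, Pi.zero_apply] at h5
  exact hQw h5

theorem ext_dense {n : ℕ} {ρ : ℝ} {Q : (Fin n → ℂ) → ℂ} (hQ : DifferentiableOn ℂ Q (bal n ρ))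
    (hne : ∃ w ∈ bal n ρ, Q w ≠ 0) {p : Fin n → ℂ} (hp : p ∈ bal n ρ) :
    (𝓝[{w | w ∈ bal n ρ ∧ Q w ≠ 0}] p).NeBot := by
  obtain ⟨v, hv⟩ := ext_line hQ hne hp
  have h1 : Tendsto (fun t : ℂ => p + t • v) (𝓝[≠] 0) (𝓝[{w | w ∈ bal n ρ ∧ Q w ≠ 0}] p) := by
    rw [tendsto_nhdsWithin_iff]
    have h2 : Tendsto (fun t : ℂ => p + t • v) (𝓝 0) (𝓝 p) := by
      have : Continuous fun t : ℂ => p + t • v := by fun_prop
      have := this.tendsto 0
      simpa using this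
    refine ⟨h2.mono_left nhdsWithin_le_nhds, ?_⟩
    filter_upwards [hv, nhdsWithin_le_nhds (h2.eventually ((ext_bal_open n ρ).mem_nhds hp))]
      with t h3 h4
    exact ⟨h4, h3⟩
  exact h1.neBot

theorem ext_ae {n : ℕ} {G : (Fin n → ℂ) → ℝ≥0∞} (hG : Measurable G) (h : ∫⁻ w, G w ≠ ⊤)
    (v : Fin n → ℂ) (r : ℝ) :
    ∀ᵐ w : Fin n → ℂ, ∫⁻ t in Metric.ball (0 : ℂ) r, G (w + t • v) < ⊤ := by
  have hm : Measurable fun x : (Fin n → ℂ) × ℂ => G (x.1 + x.2 • v) := hG.comp (by fun_prop)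
  refine ae_lt_top (Measurable.lintegral_prod_right' hm) ?_
  rw [lintegral_lintegral_swap hm.aemeasurable]
  have h1 : ∀ t : ℂ, ∫⁻ w, G (w + t • v) = ∫⁻ w, G w := fun t => lintegral_add_right_eq_self _ _
  simp only [h1]
  rw [setLIntegral_const]
  exact ENNReal.mul_ne_top h measure_ball_lt_top.ne

theorem ext_local {n : ℕ} {ρ : ℝ} {Q f : (Fin n → ℂ) → ℂ} (hQ : DifferentiableOn ℂ Q (bal n ρ))
    (hne : ∃ w ∈ bal n ρ, Q w ≠ 0)
    (hf : DifferentiableOn ℂ f {w | w ∈ bal n ρ ∧ Q w ≠ 0})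
    (h2 : ∫⁻ w in {w | w ∈ bal n ρ ∧ Q w ≠ 0}, ‖f w‖ₑ ^ 2 ≠ ⊤) {p : Fin n → ℂ}
    (hp : p ∈ bal n ρ) : ∃ δ : ℝ, 0 < δ ∧ Metric.ball p δ ⊆ bal n ρ ∧ ∃ g : (Fin n → ℂ) → ℂ,
      DifferentiableOn ℂ g (Metric.ball p δ) ∧ ∀ w ∈ Metric.ball p δ, Q w ≠ 0 → g w = f w := by
  classical
  set Ω : Set (Fin n → ℂ) := {w | w ∈ bal n ρ ∧ Q w ≠ 0} with hΩ
  have hΩo : IsOpen Ω :=
    hQ.continuousOn.isOpen_inter_preimage (ext_bal_open n ρ) (isOpen_compl_singleton (x := (0 : ℂ)))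
  obtain ⟨v, hv⟩ := ext_line hQ hne hp
  have hv2 : ∀ᶠ t in 𝓝 (0 : ℂ), p + t • v ∈ bal n ρ := by
    have h3 : Continuous fun t : ℂ => p + t • v := by fun_prop
    refine h3.continuousAt.eventually ((ext_bal_open n ρ).mem_nhds ?_)
    simpa using hp
  rw [eventually_nhdsWithin_iff] at hv
  obtain ⟨r0, hr0, hball⟩ := Metric.eventually_nhds_iff_ball.1 (hv.and hv2)
  set r : ℝ := r0 / 2 with hr
  have hrpos : 0 < r := by positivity
  have hrr : r < r0 := by rw [hr]; linarith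
  have hc : Continuous fun x : (Fin n → ℂ) × ℂ => x.1 + x.2 • v := by fun_prop
  have h3 : ∀ᶠ w in 𝓝 p, ∀ t ∈ Metric.closedBall (0 : ℂ) r, w + t • v ∈ bal n ρ := by
    refine (isCompact_closedBall (0 : ℂ) r).eventually_forall_of_forall_eventually ?_
    intro t ht
    refine hc.continuousAt.eventually ((ext_bal_open n ρ).mem_nhds ?_)
    exact (hball t (Metric.closedBall_subset_ball hrr ht)).2
  have h4 : ∀ᶠ w in 𝓝 p, ∀ t ∈ Metric.sphere (0 : ℂ) r, w + t • v ∈ Ω := by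
    refine (isCompact_sphere (0 : ℂ) r).eventually_forall_of_forall_eventually ?_
    intro t ht
    refine hc.continuousAt.eventually (hΩo.mem_nhds ?_)
    have ht' : t ∈ Metric.ball (0 : ℂ) r0 :=
      Metric.closedBall_subset_ball hrr (Metric.sphere_subset_closedBall ht)
    refine ⟨(hball t ht').2, (hball t ht').1 ?_⟩
    rintro rfl
    rw [mem_sphere_zero_iff_norm, norm_zero] at ht
    exact hrpos.ne ht
  obtain ⟨δ1, hδ1, h5⟩ := Metric.eventually_nhds_iff_ball.1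
    ((h3.and h4).and ((ext_bal_open n ρ).mem_nhds hp))
  set δ : ℝ := δ1 / 3 with hδ
  have hδpos : 0 < δ := by positivity
  have hδ1' : Metric.ball p δ ⊆ Metric.ball p δ1 := Metric.ball_subset_ball (by linarith)
  have hδ2 : Metric.closedBall p (2 * δ) ⊆ Metric.ball p δ1 :=
    Metric.closedBall_subset_ball (by linarith)
  refine ⟨δ, hδpos, fun w hw => (h5 w (hδ1' hw)).2,
    fun w => Real.circleAverage (fun t => f (w + t • v)) 0 r, ?_, ?_⟩
  · exact ext_avg_diff hΩo hf hrpos hδpos fun w hw t ht => (h5 w (hδ2 hw)).1.2 t ht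
  -- equality
  set G : (Fin n → ℂ) → ℝ≥0∞ := Ω.indicator fun w => ‖f w‖ₑ ^ 2 with hG
  have hGm : Measurable G := ext_meas_ind hΩo hf.continuousOn
  have hGi : ∫⁻ w, G w ≠ ⊤ := by
    rw [hG, lintegral_indicator hΩo.measurableSet]
    exact h2
  have hae := ext_ae hGm hGi v r
  set W : Set (Fin n → ℂ) := Metric.ball p δ ∩ Ω with hW
  have hWo : IsOpen W := Metric.isOpen_ball.inter hΩo
  have hga : ContinuousOn (fun w => Real.circleAverage (fun t => f (w + t • v)) 0 r) W :=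
    (ext_avg_diff hΩo hf hrpos hδpos
      fun w hw t ht => (h5 w (hδ2 hw)).1.2 t ht).continuousOn.mono inter_subset_left
  have hfa : ContinuousOn f W := hf.continuousOn.mono inter_subset_right
  have heq : (fun w => Real.circleAverage (fun t => f (w + t • v)) 0 r) =ᵐ[volume.restrict W] f := by
    filter_upwards [ae_restrict_of_ae hae, ae_restrict_mem hWo.measurableSet] with w h6 h7
    have h8 := h5 w (hδ1' h7.1)
    have hUo : IsOpen {t : ℂ | w + t • v ∈ bal n ρ} := (ext_bal_open n ρ).preimage (by fun_prop)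
    have h9 := ext_slice (q := fun t => Q (w + t • v)) (φ := fun t => f (w + t • v))
      (U := {t : ℂ | w + t • v ∈ bal n ρ}) hrpos hUo h8.1.1 ?_ ?_ ?_ ?_ ?_
    · simpa using h9
    · exact hQ.comp (g := Q) (f := fun t : ℂ => w + t • v) (by fun_prop) fun t ht => ht
    · intro t ht
      exact (h8.1.2 t ht).2
    · exact hf.comp (g := f) (f := fun t : ℂ => w + t • v) (by fun_prop) fun t ht => ht
    · refine ne_top_of_le_ne_top h6.ne ?_
      have hms : MeasurableSet {t : ℂ | t ∈ Metric.ball (0 : ℂ) r ∧ Q (w + t • v) ≠ 0} := by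
        have : {t : ℂ | t ∈ Metric.ball (0 : ℂ) r ∧ Q (w + t • v) ≠ 0} =
            Metric.ball (0 : ℂ) r ∩ {t : ℂ | w + t • v ∈ Ω} := by
          ext t
          constructor
          · rintro ⟨h1, h2⟩
            exact ⟨h1, h8.1.1 t (Metric.ball_subset_closedBall h1), h2⟩
          · rintro ⟨h1, h2⟩
            exact ⟨h1, h2.2⟩
        rw [this]
        exact (Metric.isOpen_ball.inter (hΩo.preimage (by fun_prop))).measurableSet
      calc ∫⁻ t in {t : ℂ | t ∈ Metric.ball (0 : ℂ) r ∧ Q (w + t • v) ≠ 0}, ‖f (w + t • v)‖ₑ ^ 2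
          = ∫⁻ t in {t : ℂ | t ∈ Metric.ball (0 : ℂ) r ∧ Q (w + t • v) ≠ 0}, G (w + t • v) := by
            refine setLIntegral_congr_fun hms fun t ht => ?_
            have : w + t • v ∈ Ω := ⟨h8.1.1 t (Metric.ball_subset_closedBall ht.1), ht.2⟩
            simp only [hG]
            rw [indicator_of_mem this]
        _ ≤ _ := lintegral_mono_set fun t ht => ht.1
    · simpa using h7.2.2
  have h6 := Measure.eqOn_open_of_ae_eq heq hWo hga hfa
  intro w hw hQw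
  exact h6 ⟨hw, (h5 w (hδ1' hw)).2, hQw⟩

/-- `L²` holomorphic functions extend over the zeros of `Q`. -/
theorem ext_L2 {n : ℕ} {ρ : ℝ} {Q f : (Fin n → ℂ) → ℂ} (hQ : DifferentiableOn ℂ Q (bal n ρ))
    (hne : ∃ w ∈ bal n ρ, Q w ≠ 0)
    (hf : DifferentiableOn ℂ f {w | w ∈ bal n ρ ∧ Q w ≠ 0})
    (h2 : ∫⁻ w in {w | w ∈ bal n ρ ∧ Q w ≠ 0}, ‖f w‖ₑ ^ 2 ≠ ⊤) :
    ∃ g : (Fin n → ℂ) → ℂ, DifferentiableOn ℂ g (bal n ρ) ∧
      ∀ w ∈ bal n ρ, Q w ≠ 0 → g w = f w := by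
  set Ω : Set (Fin n → ℂ) := {w | w ∈ bal n ρ ∧ Q w ≠ 0} with hΩ
  have hΩo : IsOpen Ω :=
    hQ.continuousOn.isOpen_inter_preimage (ext_bal_open n ρ) (isOpen_compl_singleton (x := (0 : ℂ)))
  refine ⟨fun w => limUnder (𝓝[Ω] w) f, ?_, ?_⟩
  · intro p hp
    obtain ⟨δ, hδ, hsub, g, hg, hgf⟩ := ext_local hQ hne hf h2 hp
    refine DifferentiableAt.differentiableWithinAt ?_
    refine (hg.differentiableAt (Metric.ball_mem_nhds p hδ)).congr_of_eventuallyEq ?_
    filter_upwards [Metric.ball_mem_nhds p hδ] with w hw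
    have : (𝓝[Ω] w).NeBot := ext_dense hQ hne (hsub hw)
    refine Tendsto.limUnder_eq ?_
    have h3 : Tendsto g (𝓝[Ω] w) (𝓝 (g w)) :=
      ((hg.differentiableAt (Metric.isOpen_ball.mem_nhds hw)).continuousAt.tendsto).mono_left
        nhdsWithin_le_nhds
    refine h3.congr' ?_
    filter_upwards [self_mem_nhdsWithin, nhdsWithin_le_nhds (Metric.isOpen_ball.mem_nhds hw)]
      with z hz hz'
    exact hgf z hz' hz.2
  · intro w hw hQw
    have : (𝓝[Ω] w).NeBot := ext_dense hQ hne hw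
    refine Tendsto.limUnder_eq ?_
    exact (hf.continuousOn w ⟨hw, hQw⟩).tendsto

/-- the sup norm is bounded by the `L²` norm. -/
theorem sup_le_L2 (n : ℕ) {ρ' ρ : ℝ} (h0 : 0 < ρ') (h : ρ' < ρ) : ∃ C : ℝ≥0, ∀ g :
    (Fin n → ℂ) → ℂ, DifferentiableOn ℂ g (bal n ρ) → ∀ w, nq w ≤ ρ' ^ 2 →
      ‖g w‖ₑ ^ 2 ≤ C * ∫⁻ w in bal n ρ, ‖g w‖ₑ ^ 2 := ext_sup_le_L2 n h0 h

end Pool.Agent.Odp3
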