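import Pool.Agent.Odp3.An.Taylor

/-!
# Orders and leading forms of holomorphic functions of several variables
-/

open scoped ContDiff Topology ENNReal NNReal
open Set Filter MvPolynomial Metric

namespace Pool.Agent.Odp3

section lead

variable {n : ℕ}

/-- `f = O(|w|^k)` near `0` -/
def IsO (k : ℕ) (f : (Fin n → ℂ) → ℂ) : Prop :=
  ∃ C ρ : ℝ, 0 < ρ ∧ ∀ w, nq w < ρ ^ 2 → ‖f w‖ ≤ C * √(nq w) ^ k

/-- the constants can be chosen small -/
theorem IsO.exists_small {k : ℕ} {f : (Fin n → ℂ) → ℂ} (h : IsO k f) {r : ℝ} (hr : 0 < r) :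
    ∃ C ρ : ℝ, 0 ≤ C ∧ 0 < ρ ∧ ρ ≤ r ∧ ∀ w, nq w < ρ ^ 2 → ‖f w‖ ≤ C * √(nq w) ^ k := by
  obtain ⟨C, ρ, hρ, h⟩ := h
  refine ⟨|C|, min ρ r, abs_nonneg _, lt_min hρ hr, min_le_right _ _, fun w hw => ?_⟩
  have h1 : nq w < ρ ^ 2 := hw.trans_le
    (pow_le_pow_left₀ (lt_min hρ hr).le (min_le_left _ _) 2)
  exact (h w h1).trans (mul_le_mul_of_nonneg_right (le_abs_self C) (by positivity))

theorem isO_sqrt_le_one {w : Fin n → ℂ} {ρ : ℝ} (hρ : 0 < ρ) (hρ1 : ρ ≤ 1) (hw : nq w < ρ ^ 2) :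
    √(nq w) ≤ 1 := by
  rw [Real.sqrt_le_one]
  have : ρ ^ 2 ≤ 1 := by nlinarith
  linarith

theorem IsO.mono {k l : ℕ} {f : (Fin n → ℂ) → ℂ} (h : IsO k f) (hl : l ≤ k) : IsO l f := by
  obtain ⟨C, ρ, hC, hρ, hρ1, h⟩ := h.exists_small one_pos
  refine ⟨C, ρ, hρ, fun w hw => (h w hw).trans ?_⟩
  exact mul_le_mul_of_nonneg_left
    (pow_le_pow_of_le_one (Real.sqrt_nonneg _) (isO_sqrt_le_one hρ hρ1 hw) hl) hC

theorem IsO.congr {k : ℕ} {f g : (Fin n → ℂ) → ℂ} (h : IsO k f) {r : ℝ} (hr : 0 < r)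
    (hfg : ∀ w, nq w < r ^ 2 → f w = g w) : IsO k g := by
  obtain ⟨C, ρ, -, hρ, hρr, h⟩ := h.exists_small hr
  refine ⟨C, ρ, hρ, fun w hw => ?_⟩
  rw [← hfg w (hw.trans_le (pow_le_pow_left₀ hρ.le hρr 2))]
  exact h w hw

theorem IsO.add {k : ℕ} {f g : (Fin n → ℂ) → ℂ} (hf : IsO k f) (hg : IsO k g) :
    IsO k fun w => f w + g w := by
  obtain ⟨C, ρ, -, hρ, -, h⟩ := hf.exists_small one_pos
  obtain ⟨C', ρ', -, hρ', hρρ', h'⟩ := hg.exists_small hρ
  refine ⟨C + C', ρ', hρ', fun w hw => ?_⟩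
  refine (norm_add_le _ _).trans ?_
  rw [add_mul]
  exact add_le_add (h w (hw.trans_le (pow_le_pow_left₀ hρ'.le hρρ' 2))) (h' w hw)

theorem IsO.neg {k : ℕ} {f : (Fin n → ℂ) → ℂ} (hf : IsO k f) : IsO k fun w => - f w := by
  obtain ⟨C, ρ, hρ, h⟩ := hf
  exact ⟨C, ρ, hρ, fun w hw => by rw [norm_neg]; exact h w hw⟩

theorem IsO.sub {k : ℕ} {f g : (Fin n → ℂ) → ℂ} (hf : IsO k f) (hg : IsO k g) :
    IsO k fun w => f w - g w := by
  simpa only [sub_eq_add_neg] using hf.add hg.neg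

theorem IsO.mul {k l : ℕ} {f g : (Fin n → ℂ) → ℂ} (hf : IsO k f) (hg : IsO l g) :
    IsO (k + l) fun w => f w * g w := by
  obtain ⟨C, ρ, hC, hρ, -, h⟩ := hf.exists_small one_pos
  obtain ⟨C', ρ', -, hρ', hρρ', h'⟩ := hg.exists_small hρ
  refine ⟨C * C', ρ', hρ', fun w hw => ?_⟩
  rw [norm_mul, pow_add]
  calc ‖f w‖ * ‖g w‖ ≤ (C * √(nq w) ^ k) * (C' * √(nq w) ^ l) :=
        mul_le_mul (h w (hw.trans_le (pow_le_pow_left₀ hρ'.le hρρ' 2))) (h' w hw) (norm_nonneg _)
          (by positivity)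
    _ = _ := by ring

theorem isO_zero (k : ℕ) : IsO k fun _ : Fin n → ℂ => (0 : ℂ) :=
  ⟨0, 1, one_pos, fun w _ => by simp⟩

theorem IsO.sum {ι : Type*} {k : ℕ} (s : Finset ι) {f : ι → (Fin n → ℂ) → ℂ}
    (h : ∀ i ∈ s, IsO k (f i)) : IsO k fun w => ∑ i ∈ s, f i w := by
  classical
  induction s using Finset.induction_on with
  | empty => simpa using isO_zero k
  | insert a s ha ih =>
    simp only [Finset.sum_insert ha]
    exact (h a (Finset.mem_insert_self _ _)).add
      (ih fun i hi => h i (Finset.mem_insert_of_mem hi))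

theorem IsO.const_mul {k : ℕ} {f : (Fin n → ℂ) → ℂ} (hf : IsO k f) (a : ℂ) :
    IsO k fun w => a * f w := by
  have h : IsO 0 fun _ : Fin n → ℂ => a := ⟨‖a‖, 1, one_pos, fun w _ => by simp⟩
  simpa using h.mul hf

/-- holomorphic functions are bounded near `0` -/
theorem isO_zero_of_continuousOn {f : (Fin n → ℂ) → ℂ} {ρ : ℝ} (hρ : 0 < ρ)
    (hf : ContinuousOn f (bal n ρ)) : IsO 0 f := by
  have h0 : bal n ρ ∈ 𝓝 (0 : Fin n → ℂ) :=
    Filter.mem_of_superset (ball_mem_nhds _ (by positivity)) (tay_ball_subset hρ)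
  have h1 : ∀ᶠ w in 𝓝 (0 : Fin n → ℂ), ‖f w‖ < ‖f 0‖ + 1 :=
    (hf.continuousAt h0).norm.eventually_lt_const (by linarith)
  obtain ⟨ε, hε, h2⟩ := Metric.eventually_nhds_iff_ball.mp h1
  refine ⟨‖f 0‖ + 1, ε, hε, fun w hw => ?_⟩
  rw [pow_zero, mul_one]
  refine (h2 w ?_).le
  rw [mem_ball_zero_iff]
  refine (tay_norm_le_sqrt w).trans_lt ?_
  rw [← Real.sqrt_sq hε.le]
  exact Real.sqrt_lt_sqrt (tay_nq_nonneg w) hw

theorem isO_eval_of_mem {k : ℕ} {p : MvPolynomial (Fin n) ℂ} (hp : p ∈ idealOfVars (Fin n) ℂ ^ k) :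
    IsO k fun w => eval w p := by
  classical
  rw [mem_pow_idealOfVars_iff] at hp
  have h1 : (fun w : Fin n → ℂ => eval w p) = fun w => ∑ m ∈ p.support,
      coeff m p * ∏ i ∈ m.support, w i ^ m i := by
    funext w
    exact eval_eq w p
  rw [h1]
  refine IsO.sum _ fun m hm => IsO.const_mul ?_ _
  refine ⟨1, 1, one_pos, fun w hw => ?_⟩
  rw [one_mul, norm_prod]
  have h2 : ∏ i ∈ m.support, ‖w i ^ m i‖ ≤ ∏ i ∈ m.support, √(nq w) ^ m i := by
    refine Finset.prod_le_prod (fun _ _ => norm_nonneg _) fun i _ => ?_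
    rw [norm_pow]
    exact pow_le_pow_left₀ (norm_nonneg _) ((norm_le_pi_norm w i).trans (tay_norm_le_sqrt w)) _
  refine h2.trans ?_
  rw [Finset.prod_pow_eq_pow_sum]
  exact pow_le_pow_of_le_one (Real.sqrt_nonneg _) (isO_sqrt_le_one one_pos le_rfl hw) (hp m hm)

theorem mem_pow_of_isO {k : ℕ} {p : MvPolynomial (Fin n) ℂ} (h : IsO k fun w => eval w p) :
    p ∈ idealOfVars (Fin n) ℂ ^ k := by
  obtain ⟨C, ρ, hρ, h⟩ := h
  exact mem_pow_of_le hρ h

theorem isHomogeneous_mem_pow {k : ℕ} {p : MvPolynomial (Fin n) ℂ} (hp : p.IsHomogeneous k) :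
    p ∈ idealOfVars (Fin n) ℂ ^ k := by
  rw [mem_pow_idealOfVars_iff]
  intro m hm
  have h1 := hp (mem_support_iff.mp hm)
  rw [Finsupp.degree_eq_weight_one]
  exact h1.ge

theorem isO_eval {k : ℕ} {p : MvPolynomial (Fin n) ℂ} (hp : p.IsHomogeneous k) :
    IsO k fun w => eval w p := isO_eval_of_mem (isHomogeneous_mem_pow hp)

/-- an inequality on a dense set -/
theorem isO_of_dense {k : ℕ} {f : (Fin n → ℂ) → ℂ} {ρ : ℝ} (hρ : 0 < ρ)
    (hf : ContinuousOn f (bal n ρ)) {C : ℝ} {S : Set (Fin n → ℂ)}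
    (hS : ∀ w, nq w < ρ ^ 2 → w ∈ closure (S ∩ bal n ρ))
    (h : ∀ w ∈ S, nq w < ρ ^ 2 → ‖f w‖ ≤ C * √(nq w) ^ k) : IsO k f := by
  refine ⟨C, ρ, hρ, fun w hw => ?_⟩
  have hne : (𝓝[S ∩ bal n ρ] w).NeBot := mem_closure_iff_nhdsWithin_neBot.mp (hS w hw)
  have h1 : Tendsto (fun w => ‖f w‖) (𝓝[S ∩ bal n ρ] w) (𝓝 ‖f w‖) :=
    ((hf w hw).norm.mono_left (nhdsWithin_mono _ inter_subset_right))
  have hc : Continuous fun w : Fin n → ℂ => C * √(nq w) ^ k := by
    unfold nq
    fun_prop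
  have h2 : Tendsto (fun w => C * √(nq w) ^ k) (𝓝[S ∩ bal n ρ] w) (𝓝 (C * √(nq w) ^ k)) :=
    (hc.tendsto w).mono_left nhdsWithin_le_nhds
  refine le_of_tendsto_of_tendsto h1 h2 ?_
  filter_upwards [self_mem_nhdsWithin] with z hz using h z hz.1 hz.2

/-! ### Leading forms -/

/-- the homogeneous part of degree `k` of `f` -/
noncomputable def lead (k : ℕ) (f : (Fin n → ℂ) → ℂ) : MvPolynomial (Fin n) ℂ :=
  homogeneousComponent k (tay (k + 1) f)

theorem lead_isHomogeneous (k : ℕ) (f : (Fin n → ℂ) → ℂ) : (lead k f).IsHomogeneous k :=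
  homogeneousComponent_isHomogeneous _ _

theorem isO_sub_tay (k : ℕ) {f : (Fin n → ℂ) → ℂ} {ρ : ℝ} (hρ : 0 < ρ)
    (hf : DifferentiableOn ℂ f (bal n ρ)) : IsO k fun w => f w - eval w (tay k f) := by
  obtain ⟨C, ρ', -, hρ', hρρ', h⟩ :=
    (isO_zero_of_continuousOn hρ hf.continuousOn).exists_small hρ
  have hsub : bal n ρ' ⊆ bal n ρ := fun w hw =>
    lt_of_lt_of_le hw (pow_le_pow_left₀ hρ'.le hρρ' 2)
  obtain ⟨C', -, h'⟩ := tay_bal n k hρ'
  exact ⟨C' * C, ρ', hρ', (h' f C (hf.mono hsub) fun w hw => by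
    simpa using h w hw).2⟩

theorem lead_spec {k : ℕ} {f : (Fin n → ℂ) → ℂ} {ρ : ℝ} (hρ : 0 < ρ)
    (hf : DifferentiableOn ℂ f (bal n ρ)) (h : IsO k f) :
    IsO (k + 1) fun w => f w - eval w (lead k f) := by
  have h1 := isO_sub_tay (k + 1) hρ hf
  have h2 : IsO k fun w => eval w (tay (k + 1) f) := by
    have h3 := h.sub (h1.mono (Nat.le_succ k))
    refine h3.congr one_pos fun w _ => ?_
    ring
  have h3 := mem_pow_of_isO h2
  have h4 : lead k f = tay (k + 1) f := by
    rw [mem_pow_idealOfVars_iff'] at h3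
    ext m
    rw [lead, coeff_homogeneousComponent]
    split_ifs with hm
    · rfl
    · rcases lt_or_gt_of_ne hm with hm | hm
      · exact (h3 m hm).symm
      · by_contra h5
        have h6 := degree_lt_tay (k + 1) f m (mem_support_iff.mpr (Ne.symm h5))
        omega
  rw [h4]
  exact h1

theorem eq_zero_of_isO {k : ℕ} {p : MvPolynomial (Fin n) ℂ} (hp : p.IsHomogeneous k)
    (h : IsO (k + 1) fun w => eval w p) : p = 0 := by
  have h1 := mem_pow_of_isO h
  rw [mem_pow_idealOfVars_iff'] at h1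
  ext m
  rw [coeff_zero]
  by_contra h2
  have h3 := hp h2
  have h4 : m.degree = k := by
    rw [Finsupp.degree_eq_weight_one]
    exact h3
  exact h2 (h1 m (by rw [h4]; exact Nat.lt_succ_self k))

theorem lead_unique {k : ℕ} {f : (Fin n → ℂ) → ℂ} {ρ : ℝ} (hρ : 0 < ρ)
    (hf : DifferentiableOn ℂ f (bal n ρ)) {p : MvPolynomial (Fin n) ℂ} (hp : p.IsHomogeneous k)
    (h : IsO (k + 1) fun w => f w - eval w p) : lead k f = p := by
  have h1 : IsO k f := by
    have h2 := (h.mono (Nat.le_succ k)).add (isO_eval hp)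
    refine h2.congr one_pos fun w _ => ?_
    ring
  have h2 := lead_spec hρ hf h1
  have h3 : IsO (k + 1) fun w => eval w (lead k f - p) := by
    refine (h.sub h2).congr one_pos fun w _ => ?_
    rw [map_sub]
    ring
  have h4 := eq_zero_of_isO ((lead_isHomogeneous k f).sub hp) h3
  exact sub_eq_zero.mp h4

theorem isO_succ_iff {k : ℕ} {f : (Fin n → ℂ) → ℂ} {ρ : ℝ} (hρ : 0 < ρ)
    (hf : DifferentiableOn ℂ f (bal n ρ)) (h : IsO k f) : IsO (k + 1) f ↔ lead k f = 0 := by
  constructor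
  · intro h1
    refine lead_unique hρ hf (isHomogeneous_zero _ _ _) ?_
    refine h1.congr one_pos fun w _ => ?_
    simp
  · intro h1
    refine (lead_spec hρ hf h).congr one_pos fun w _ => ?_
    rw [h1]
    simp

theorem lead_add {k : ℕ} {f g : (Fin n → ℂ) → ℂ} {ρ : ℝ} (hρ : 0 < ρ)
    (hf : DifferentiableOn ℂ f (bal n ρ)) (hg : DifferentiableOn ℂ g (bal n ρ)) (h : IsO k f)
    (h' : IsO k g) : lead k (fun w => f w + g w) = lead k f + lead k g := by
  refine lead_unique hρ (hf.fun_add hg) ((lead_isHomogeneous k f).add (lead_isHomogeneous k g)) ?_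
  refine ((lead_spec hρ hf h).add (lead_spec hρ hg h')).congr one_pos fun w _ => ?_
  rw [map_add]
  ring

theorem lead_mul {k l : ℕ} {f g : (Fin n → ℂ) → ℂ} {ρ : ℝ} (hρ : 0 < ρ)
    (hf : DifferentiableOn ℂ f (bal n ρ)) (hg : DifferentiableOn ℂ g (bal n ρ)) (h : IsO k f)
    (h' : IsO l g) : lead (k + l) (fun w => f w * g w) = lead k f * lead l g := by
  refine lead_unique hρ (hf.fun_mul hg) ((lead_isHomogeneous k f).mul (lead_isHomogeneous l g)) ?_
  have h1 := (lead_spec hρ hf h).mul h'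
  have h2 := (isO_eval (lead_isHomogeneous k f)).mul (lead_spec hρ hg h')
  rw [show k + 1 + l = k + l + 1 by ring] at h1
  refine (h1.add h2).congr one_pos fun w _ => ?_
  rw [map_mul]
  ring

theorem lead_congr {k : ℕ} {f g : (Fin n → ℂ) → ℂ} {ρ : ℝ} (hρ : 0 < ρ)
    (h : ∀ w, nq w < ρ ^ 2 → f w = g w) : lead k f = lead k g := by
  rw [lead, lead, tay_congr (k + 1) (isOpen_ball (x := (0 : Fin n → ℂ)) (ε := ρ / (n + 1)))
    (mem_ball_self (by positivity)) fun w hw => h w (tay_ball_subset hρ hw)]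

theorem differentiable_eval' (p : MvPolynomial (Fin n) ℂ) :
    Differentiable ℂ fun w : Fin n → ℂ => eval w p := by
  induction p using MvPolynomial.induction_on with
  | C a => simp
  | add p q hp hq =>
    simp only [map_add]
    exact hp.fun_add hq
  | mul_X p j hp =>
    have : Differentiable ℂ fun w : Fin n → ℂ => w j := by fun_prop
    simp only [map_mul, eval_X]
    exact hp.fun_mul this

theorem lead_eval {k : ℕ} {p : MvPolynomial (Fin n) ℂ} (hp : p.IsHomogeneous k) :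
    lead k (fun w => eval w p) = p := by
  have hd : DifferentiableOn ℂ (fun w : Fin n → ℂ => eval w p) (bal n 1) :=
    (differentiable_eval' p).differentiableOn
  refine lead_unique one_pos hd hp ?_
  refine (isO_zero (k + 1)).congr one_pos fun w _ => ?_
  simp

/-- the order is additive -/
theorem isO_of_mul {k l : ℕ} {f g : (Fin n → ℂ) → ℂ} {ρ : ℝ} (hρ : 0 < ρ)
    (hf : DifferentiableOn ℂ f (bal n ρ)) (hg : DifferentiableOn ℂ g (bal n ρ)) (h : IsO k f)
    (h0 : lead k f ≠ 0) (hfg : IsO (k + l) fun w => f w * g w) : IsO l g := by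
  have key : ∀ j ≤ l, IsO j g := by
    intro j
    induction j with
    | zero => intro _; exact isO_zero_of_continuousOn hρ hg.continuousOn
    | succ j ih =>
      intro hj
      have h1 := ih (by omega)
      have h2 := lead_mul hρ hf hg h h1
      have h3 : lead (k + j) (fun w => f w * g w) = 0 :=
        (isO_succ_iff hρ (hf.fun_mul hg) (h.mul h1)).mp (hfg.mono (by omega))
      rw [h3] at h2
      rcases mul_eq_zero.mp h2.symm with h4 | h4
      · exact absurd h4 h0
      · exact (isO_succ_iff hρ hg h1).mpr h4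
  exact key l le_rfl

/-! ### Quadratic forms -/

/-- a quadratic form which is not a multiple of a square is squarefree -/
theorem squarefree_of_quad {q : MvPolynomial (Fin n) ℂ} (hq : q.IsHomogeneous 2)
    (h : ∀ (c : ℂ) (l : MvPolynomial (Fin n) ℂ), l.IsHomogeneous 1 → q ≠ MvPolynomial.C c * l ^ 2) :
    Squarefree q := by
  classical
  have hq0 : q ≠ 0 := by
    intro h0
    refine h 0 0 (isHomogeneous_zero _ _ _) ?_
    rw [h0]
    simp
  intro p hp
  obtain ⟨w, hw⟩ := hp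
  have hp0 : p ≠ 0 := by
    rintro rfl
    exact hq0 (by rw [hw]; ring)
  have hw0 : w ≠ 0 := by
    rintro rfl
    exact hq0 (by rw [hw]; ring)
  have hdeg : q.totalDegree = p.totalDegree + p.totalDegree + w.totalDegree := by
    rw [hw, totalDegree_mul_of_isDomain (mul_ne_zero hp0 hp0) hw0,
      totalDegree_mul_of_isDomain hp0 hp0]
  rw [hq.totalDegree hq0] at hdeg
  by_cases hp1 : p.totalDegree = 0
  · rw [totalDegree_eq_zero_iff_eq_C] at hp1
    rw [hp1] at hp0 ⊢
    refine IsUnit.map MvPolynomial.C ?_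
    rw [isUnit_iff_ne_zero]
    rintro h1
    exact hp0 (by rw [h1, C_0])
  · exfalso
    have hp2 : p.totalDegree = 1 := by omega
    have hw2 : w.totalDegree = 0 := by omega
    rw [totalDegree_eq_zero_iff_eq_C] at hw2
    set a := coeff 0 w
    -- the linear part
    have h1 : p = MvPolynomial.C (coeff 0 p) + homogeneousComponent 1 p := by
      conv_lhs => rw [← sum_homogeneousComponent p]
      rw [hp2, Finset.sum_range_succ, Finset.sum_range_one, homogeneousComponent_zero]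
    refine h a (homogeneousComponent 1 p) (homogeneousComponent_isHomogeneous _ _) ?_
    have h2 : q = MvPolynomial.C a * homogeneousComponent 1 p ^ 2 +
        (MvPolynomial.C (a * 2 * coeff 0 p) * homogeneousComponent 1 p +
          MvPolynomial.C (a * coeff 0 p ^ 2)) := by
      rw [hw, hw2]
      conv_lhs => rw [h1]
      simp only [C_mul, C_pow, map_ofNat]
      ring
    have h3 : (homogeneousComponent 1 p).IsHomogeneous 1 :=
      homogeneousComponent_isHomogeneous _ _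
    have h4 : (MvPolynomial.C a * homogeneousComponent 1 p ^ 2).IsHomogeneous 2 := by
      simpa using (isHomogeneous_C (Fin n) a).mul (h3.pow 2)
    have h5 : (MvPolynomial.C (a * 2 * coeff 0 p) * homogeneousComponent 1 p).IsHomogeneous 1 := by
      simpa using (isHomogeneous_C (Fin n) (a * 2 * coeff 0 p)).mul h3
    have h6 := congrArg (homogeneousComponent 2) h2
    rw [map_add, map_add, homogeneousComponent_of_mem hq, homogeneousComponent_of_mem h4,
      homogeneousComponent_of_mem h5, homogeneousComponent_of_mem (isHomogeneous_C (Fin n) _)]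
      at h6
    simpa using h6

/-- a factor of a homogeneous polynomial is homogeneous -/
theorem exists_homogeneous_factor {q Q : MvPolynomial (Fin n) ℂ} {a b : ℕ} (hq : q.IsHomogeneous a)
    (hQ : Q.IsHomogeneous (b + a)) (h : q ∣ Q) : ∃ c, c.IsHomogeneous b ∧ Q = c * q := by
  classical
  obtain ⟨c, hc⟩ := h
  refine ⟨homogeneousComponent b c, homogeneousComponent_isHomogeneous _ _, ?_⟩
  have h1 : Q = ∑ i ∈ Finset.range (c.totalDegree + 1), homogeneousComponent i c * q := by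
    rw [← Finset.sum_mul, sum_homogeneousComponent, hc, mul_comm]
  have h2 := congrArg (homogeneousComponent (b + a)) h1
  rw [homogeneousComponent_of_mem hQ, if_pos rfl, map_sum] at h2
  rw [h2]
  have h3 : ∀ i, homogeneousComponent (b + a) (homogeneousComponent i c * q) =
      if i = b then homogeneousComponent b c * q else 0 := by
    intro i
    rw [homogeneousComponent_of_mem ((homogeneousComponent_isHomogeneous i c).mul hq)]
    by_cases hi : i = b
    · rw [if_pos (by rw [hi]), if_pos hi, hi]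
    · rw [if_neg (by omega), if_neg hi]
  rw [Finset.sum_congr rfl fun i _ => h3 i, Finset.sum_ite_eq']
  split_ifs with hb
  · rfl
  · rw [Finset.mem_range, not_lt] at hb
    rw [homogeneousComponent_eq_zero _ _ (by omega), zero_mul]

/-- the division in the proof of the CLAIM -/
theorem exists_quot {q Q R : MvPolynomial (Fin n) ℂ} {k : ℕ} (hq : q.IsHomogeneous 2)
    (hsq : Squarefree q) (hQ : Q.IsHomogeneous (k + 2)) (h : Q ^ 2 = R * q) :
    ∃ c, c.IsHomogeneous k ∧ Q = c * q := by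
  refine exists_homogeneous_factor hq hQ ?_
  have h1 : q ∣ Q ^ 2 := ⟨R, by rw [h, mul_comm]⟩
  exact (hsq.dvd_pow_iff_dvd two_ne_zero).mp h1

theorem eval_add_of_linear {l : MvPolynomial (Fin n) ℂ} (hl : l.IsHomogeneous 1)
    (u v : Fin n → ℂ) : eval (u + v) l = eval u l + eval v l := by
  have h1 : l ∈ Submodule.span ℂ (Set.range (X : Fin n → MvPolynomial (Fin n) ℂ)) := by
    rw [← homogeneousSubmodule_one_eq_span_X]
    exact hl
  clear hl
  induction h1 using Submodule.span_induction with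
  | mem x hx =>
    obtain ⟨i, rfl⟩ := hx
    simp
  | zero => simp
  | add x y _ _ hx hy =>
    rw [map_add, map_add, map_add, hx, hy]
    ring
  | smul a x _ hx =>
    rw [smul_eval, smul_eval, smul_eval, hx]
    ring

/-- a diagonal quadratic form in `n ≥ 2` independent linear forms is squarefree -/
theorem squarefree_of_diag {N : Matrix (Fin n) (Fin n) ℂ} {D : Fin n → ℂ} (hn : 2 ≤ n)
    (hD : ∀ i, D i ≠ 0) {q : MvPolynomial (Fin n) ℂ} (hq : q.IsHomogeneous 2)
    (h : ∀ u : Fin n → ℂ, eval (N.mulVec u) q = ∑ i, D i * u i ^ 2) : Squarefree q := by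
  classical
  refine squarefree_of_quad hq fun c l hl hql => ?_
  let i₀ : Fin n := ⟨0, by omega⟩
  let i₁ : Fin n := ⟨1, by omega⟩
  have hne : i₀ ≠ i₁ := by
    intro h
    have := congrArg Fin.val h
    simp [i₀, i₁] at this
  have h0 : ∀ u, c * (eval (N.mulVec u) l) ^ 2 = ∑ i, D i * u i ^ 2 := by
    intro u
    rw [← h u, hql]
    simp
  set a := eval (N.mulVec (Pi.single i₀ 1)) l
  set b := eval (N.mulVec (Pi.single i₁ 1)) l
  have ha : c * a ^ 2 = D i₀ := by
    rw [h0]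
    rw [Finset.sum_eq_single i₀ (fun i _ hi => by simp [hi]) (by simp)]
    simp
  have hb : c * b ^ 2 = D i₁ := by
    rw [h0]
    rw [Finset.sum_eq_single i₁ (fun i _ hi => by simp [hi]) (by simp)]
    simp
  have hab : c * (a + b) ^ 2 = D i₀ + D i₁ := by
    rw [← eval_add_of_linear hl, ← Matrix.mulVec_add, h0]
    rw [Finset.sum_eq_add i₀ i₁ hne (fun i _ hi => by simp [hi.1, hi.2]) (by simp) (by simp)]
    simp [hne, hne.symm]
  have h3 : c * a * b = 0 := by linear_combination (hab - ha - hb) / 2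
  rcases mul_eq_zero.mp h3 with h4 | h4
  · exact hD i₀ (by rw [← ha]; linear_combination a * h4)
  · exact hD i₁ (by rw [← hb, h4]; ring)

end lead

end Pool.Agent.Odp3
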