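import Pool.Agent.Odp3.Defs
import Pool.Agent.Work.MP_0e9e72_an.SCVA

/-!
# Taylor polynomials of holomorphic functions in several variables
-/

open scoped ContDiff Topology ENNReal NNReal
open Set Filter MvPolynomial Metric

namespace Pool.Agent.Odp3

section taylor

variable {n : ℕ}

/-- the polynomial `q` with `d/ds (s q(s w)) = p(s w)` -/
noncomputable def tayI (p : MvPolynomial (Fin n) ℂ) : MvPolynomial (Fin n) ℂ :=
  ∑ m ∈ p.support, monomial m (coeff m p / ((m.degree : ℂ) + 1))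

theorem coeff_tayI (p : MvPolynomial (Fin n) ℂ) (m : Fin n →₀ ℕ) :
    coeff m (tayI p) = coeff m p / ((m.degree : ℂ) + 1) := by
  classical
  rw [tayI, coeff_sum]
  simp only [coeff_monomial]
  rw [Finset.sum_ite_eq' p.support m]
  split_ifs with h
  · rfl
  · rw [notMem_support_iff.mp h, zero_div]

theorem norm_coeff_tayI_le (p : MvPolynomial (Fin n) ℂ) (m : Fin n →₀ ℕ) :
    ‖coeff m (tayI p)‖ ≤ ‖coeff m p‖ := by
  rw [coeff_tayI, norm_div]
  refine div_le_self (norm_nonneg _) ?_
  have h : ((m.degree : ℂ) + 1) = ((m.degree + 1 : ℕ) : ℂ) := by push_cast; ring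
  rw [h, Complex.norm_natCast]
  exact_mod_cast Nat.le_add_left 1 _

theorem tayI_add (p q : MvPolynomial (Fin n) ℂ) : tayI (p + q) = tayI p + tayI q := by
  ext m
  rw [coeff_add, coeff_tayI, coeff_tayI, coeff_tayI, coeff_add, add_div]

theorem tayI_smul (a : ℂ) (p : MvPolynomial (Fin n) ℂ) : tayI (a • p) = a • tayI p := by
  ext m
  rw [coeff_smul, coeff_tayI, coeff_tayI, coeff_smul, smul_eq_mul, smul_eq_mul, mul_div_assoc]

theorem hasDerivAt_tayI (p : MvPolynomial (Fin n) ℂ) (w : Fin n → ℂ) (s : ℂ) :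
    HasDerivAt (fun s : ℂ => s * eval (s • w) (tayI p)) (eval (s • w) p) s := by
  classical
  have h0 : ∀ (m : Fin n →₀ ℕ) (a s : ℂ), eval (s • w) (monomial m a) =
      a * s ^ m.degree * ∏ i, w i ^ m i := by
    intro m a s
    rw [eval_monomial, Finsupp.prod_fintype _ _ fun i => pow_zero _]
    simp only [Pi.smul_apply, smul_eq_mul, mul_pow, Finset.prod_mul_distrib]
    rw [Finset.prod_pow_eq_pow_sum, ← Finsupp.degree_eq_sum]
    ring
  have h1 : (fun s : ℂ => s * eval (s • w) (tayI p)) = fun s => ∑ m ∈ p.support,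
      (coeff m p / ((m.degree : ℂ) + 1) * ∏ i, w i ^ m i) * s ^ (m.degree + 1) := by
    funext s
    rw [tayI, map_sum, Finset.mul_sum]
    refine Finset.sum_congr rfl fun m _ => ?_
    rw [h0]
    ring
  have h2 : eval (s • w) p = ∑ m ∈ p.support,
      (coeff m p / ((m.degree : ℂ) + 1) * ∏ i, w i ^ m i) *
        (((m.degree + 1 : ℕ) : ℂ) * s ^ m.degree) := by
    conv_lhs => rw [as_sum p]
    rw [map_sum]
    refine Finset.sum_congr rfl fun m _ => ?_
    rw [h0]
    have h3 : ((m.degree : ℂ) + 1) ≠ 0 := Nat.cast_add_one_ne_zero _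
    push_cast
    field_simp
  rw [h1, h2]
  refine HasDerivAt.fun_sum fun m _ => ?_
  have h4 := (hasDerivAt_pow (m.degree + 1) s).const_mul
    (coeff m p / ((m.degree : ℂ) + 1) * ∏ i, w i ^ m i)
  simpa using h4

/-- the partial derivative -/
noncomputable def tayD (j : Fin n) (f : (Fin n → ℂ) → ℂ) (w : Fin n → ℂ) : ℂ :=
  fderiv ℂ f w (Pi.single j 1)

/-- the Taylor polynomial of degree `< K` at `0` -/
noncomputable def tay : ℕ → ((Fin n → ℂ) → ℂ) → MvPolynomial (Fin n) ℂ
  | 0, _ => 0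
  | K + 1, f => C (f 0) + ∑ j, X j * tayI (tay K (tayD j f))

theorem degree_lt_tay (K : ℕ) : ∀ (f : (Fin n → ℂ) → ℂ), ∀ m ∈ (tay K f).support,
    m.degree < K := by
  classical
  induction K with
  | zero => intro f m hm; simp [tay] at hm
  | succ K ih =>
    intro f m hm
    rw [tay, mem_support_iff, coeff_add, coeff_sum] at hm
    by_contra hcon
    refine hm ?_
    have h1 : m ≠ 0 := by
      rintro rfl
      simp at hcon
    rw [coeff_C, if_neg (Ne.symm h1), zero_add]
    refine Finset.sum_eq_zero fun j _ => ?_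
    rw [coeff_X_mul']
    split_ifs with hj
    · rw [coeff_tayI]
      have h2 : m - Finsupp.single j 1 ∉ (tay K (tayD j f)).support := by
        intro h3
        have h4 := ih _ _ h3
        have h5 : (m - Finsupp.single j 1).degree + 1 = m.degree := by
          have h6 : m - Finsupp.single j 1 + Finsupp.single j 1 = m := by
            refine tsub_add_cancel_of_le ?_
            rw [Finsupp.single_le_iff]
            exact Nat.one_le_iff_ne_zero.mpr (Finsupp.mem_support_iff.mp hj)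
          conv_rhs => rw [← h6]
          rw [map_add, Finsupp.degree_single]
        omega
      rw [notMem_support_iff.mp h2, zero_div]
    · rfl

theorem hasDerivAt_ray {f : (Fin n → ℂ) → ℂ} {w : Fin n → ℂ} {s : ℂ}
    (hf : DifferentiableAt ℂ f (s • w)) :
    HasDerivAt (fun s : ℂ => f (s • w)) (∑ j, w j * tayD j f (s • w)) s := by
  classical
  have h1 : HasDerivAt (fun s : ℂ => s • w) w s := by
    simpa using (hasDerivAt_id s).smul_const w
  have h2 := hf.hasFDerivAt.comp_hasDerivAt s h1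
  have h3 : fderiv ℂ f (s • w) w = ∑ j, w j * tayD j f (s • w) := by
    have h5 : fderiv ℂ f (s • w) w = fderiv ℂ f (s • w) (∑ j, Pi.single j (w j)) := by
      rw [Finset.univ_sum_single]
    rw [h5, map_sum]
    refine Finset.sum_congr rfl fun j _ => ?_
    have h4 : (Pi.single j (w j) : Fin n → ℂ) = w j • Pi.single j 1 := by
      rw [← Pi.single_smul, smul_eq_mul, mul_one]
    rw [h4, map_smul, smul_eq_mul, tayD]
  rw [← h3]
  exact h2

/-- the Taylor estimate on a small ball -/
theorem tay_bound (n K : ℕ) : ∀ {R : ℝ}, 0 < R → ∃ C : ℝ, 0 ≤ C ∧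
    ∀ (f : (Fin n → ℂ) → ℂ) (M : ℝ), DifferentiableOn ℂ f (ball 0 R) →
      (∀ w ∈ ball (0 : Fin n → ℂ) R, ‖f w‖ ≤ M) →
      (∀ m, ‖coeff m (tay K f)‖ ≤ C * M) ∧
      ∀ w ∈ ball (0 : Fin n → ℂ) (R / 2 ^ K), ‖f w - eval w (tay K f)‖ ≤ C * M * ‖w‖ ^ K := by
  classical
  induction K with
  | zero =>
    intro R hR
    refine ⟨1, zero_le_one, fun f M hf hM => ⟨fun m => ?_, fun w hw => ?_⟩⟩
    · have h1 := (norm_nonneg _).trans (hM 0 (mem_ball_self hR))
      simpa [tay] using h1
    · simp only [pow_zero, div_one] at hw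
      simpa [tay] using hM w hw
  | succ K ih =>
    intro R hR
    obtain ⟨C, hC, h⟩ := ih (half_pos hR)
    have hC4 : 0 ≤ n * (C * (4 / R)) := by positivity
    refine ⟨1 + n * (C * (4 / R)), by positivity, fun f M hf hM => ?_⟩
    have hM0 : 0 ≤ M := (norm_nonneg _).trans (hM 0 (mem_ball_self hR))
    have hd : ∀ j, DifferentiableOn ℂ (tayD j f) (ball 0 (R / 2)) := fun j =>
      (SCV.differentiableOn_fderiv_apply isOpen_ball hf _).mono (ball_subset_ball (by linarith))
    have hb : ∀ j, ∀ w ∈ ball (0 : Fin n → ℂ) (R / 2), ‖tayD j f w‖ ≤ 4 / R * M := by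
      intro j w hw
      have h1 : ball w (R / 2) ⊆ ball 0 R := by
        refine ball_subset_ball' ?_
        rw [mem_ball] at hw
        linarith
      have h2 := SCV.norm_fderiv_le (half_pos hR) (hf.mono h1) fun z hz => hM z (h1 hz)
      have h3 : ‖fderiv ℂ f w (Pi.single j 1)‖ ≤ ‖fderiv ℂ f w‖ * ‖(Pi.single j 1 : Fin n → ℂ)‖ :=
        ContinuousLinearMap.le_opNorm _ _
      have h4 : ‖(Pi.single j 1 : Fin n → ℂ)‖ ≤ 1 := by
        rw [Pi.norm_single, norm_one]
      have h5 : ‖tayD j f w‖ ≤ ‖fderiv ℂ f w‖ := by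
        refine h3.trans ?_
        exact mul_le_of_le_one_right (norm_nonneg _) h4
      refine h5.trans (h2.trans (le_of_eq ?_))
      field_simp
      ring
    have hT := fun j => h (tayD j f) (4 / R * M) (hd j) (hb j)
    refine ⟨fun m => ?_, fun w hw => ?_⟩
    · rw [tay, coeff_add, coeff_sum]
      refine (norm_add_le _ _).trans ?_
      rw [add_mul, one_mul]
      refine add_le_add ?_ ?_
      · rw [coeff_C]
        split_ifs
        · exact hM 0 (mem_ball_self hR)
        · rw [norm_zero]; exact hM0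
      · refine (norm_sum_le _ _).trans ?_
        have h1 : ∀ j ∈ (Finset.univ : Finset (Fin n)),
            ‖coeff m (X j * tayI (tay K (tayD j f)))‖ ≤ C * (4 / R * M) := by
          intro j _
          rw [coeff_X_mul']
          split_ifs
          · exact (norm_coeff_tayI_le _ _).trans ((hT j).1 _)
          · rw [norm_zero]; positivity
        refine (Finset.sum_le_sum h1).trans (le_of_eq ?_)
        rw [Finset.sum_const, Finset.card_univ, Fintype.card_fin, nsmul_eq_mul]
        ring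
    · have hwR : ∀ s : ℂ, ‖s‖ ≤ 1 → s • w ∈ ball (0 : Fin n → ℂ) (R / 2 / 2 ^ K) := by
        intro s hs
        rw [mem_ball_zero_iff] at hw ⊢
        rw [norm_smul]
        calc ‖s‖ * ‖w‖ ≤ 1 * ‖w‖ := by gcongr
          _ < R / 2 / 2 ^ K := by rw [one_mul]; convert hw using 1; rw [pow_succ]; field_simp
      have hsub : ball (0 : Fin n → ℂ) (R / 2 / 2 ^ K) ⊆ ball 0 R := by
        refine ball_subset_ball ?_
        have h1 : (1 : ℝ) ≤ 2 ^ K := one_le_pow₀ (by norm_num)
        calc R / 2 / 2 ^ K ≤ R / 2 / 1 := by gcongr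
          _ ≤ R := by linarith
      -- the function on the ray
      let φ : ℝ → ℂ := fun t => f ((t : ℂ) • w) -
        ∑ j, w j * ((t : ℂ) * eval ((t : ℂ) • w) (tayI (tay K (tayD j f))))
      have hφ : ∀ t ∈ Icc (0 : ℝ) 1, HasDerivAt φ (∑ j, w j * (tayD j f ((t : ℂ) • w) -
          eval ((t : ℂ) • w) (tay K (tayD j f)))) t := by
        intro t ht
        have ht1 : ‖(t : ℂ)‖ ≤ 1 := by
          rw [Complex.norm_real, Real.norm_eq_abs, abs_of_nonneg ht.1]; exact ht.2
        have h1 := hasDerivAt_ray (f := f) (w := w) (s := (t : ℂ))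
          (hf.differentiableAt (isOpen_ball.mem_nhds (hsub (hwR _ ht1))))
        have h2 : HasDerivAt (fun s : ℂ => f (s • w) -
            ∑ j, w j * (s * eval (s • w) (tayI (tay K (tayD j f)))))
            (∑ j, w j * tayD j f ((t : ℂ) • w) -
              ∑ j, w j * eval ((t : ℂ) • w) (tay K (tayD j f))) (t : ℂ) := by
          refine h1.sub (HasDerivAt.fun_sum fun j _ => ?_)
          exact (hasDerivAt_tayI _ w _).const_mul _
        have h3 := h2.comp_ofReal
        rw [← Finset.sum_sub_distrib] at h3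
        simpa only [mul_sub] using h3
      have hbd : ∀ t ∈ Ico (0 : ℝ) 1, ‖∑ j, w j * (tayD j f ((t : ℂ) • w) -
          eval ((t : ℂ) • w) (tay K (tayD j f)))‖ ≤ n * (C * (4 / R)) * M * ‖w‖ ^ (K + 1) := by
        intro t ht
        have ht1 : ‖(t : ℂ)‖ ≤ 1 := by
          rw [Complex.norm_real, Real.norm_eq_abs, abs_of_nonneg ht.1]; exact ht.2.le
        refine (norm_sum_le _ _).trans ?_
        have h1 : ∀ j ∈ (Finset.univ : Finset (Fin n)), ‖w j * (tayD j f ((t : ℂ) • w) -
            eval ((t : ℂ) • w) (tay K (tayD j f)))‖ ≤ C * (4 / R) * M * ‖w‖ ^ (K + 1) := by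
          intro j _
          rw [norm_mul]
          have h2 := (hT j).2 _ (hwR _ ht1)
          have h3 : ‖(t : ℂ) • w‖ ≤ ‖w‖ := by
            rw [norm_smul]
            exact mul_le_of_le_one_left (norm_nonneg _) ht1
          calc ‖w j‖ * ‖tayD j f ((t : ℂ) • w) - eval ((t : ℂ) • w) (tay K (tayD j f))‖
              ≤ ‖w‖ * (C * (4 / R * M) * ‖w‖ ^ K) := by
                refine mul_le_mul (norm_le_pi_norm w j) (h2.trans ?_) (norm_nonneg _)
                  (norm_nonneg _)
                gcongr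
            _ = _ := by ring
        refine (Finset.sum_le_sum h1).trans (le_of_eq ?_)
        rw [Finset.sum_const, Finset.card_univ, Fintype.card_fin, nsmul_eq_mul]
        ring
      have h5 := norm_image_sub_le_of_norm_deriv_le_segment_01' (f := φ)
        (fun t ht => (hφ t ht).hasDerivWithinAt) hbd
      have h6 : f w - eval w (tay (K + 1) f) = φ 1 - φ 0 := by
        simp only [φ, tay, map_add, map_sum, map_mul, eval_C, eval_X, Complex.ofReal_one,
          one_smul, one_mul, Complex.ofReal_zero, zero_smul, zero_mul, mul_zero,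
          Finset.sum_const_zero, sub_zero]
        ring
      rw [h6]
      refine h5.trans ?_
      have : 0 ≤ M * ‖w‖ ^ (K + 1) := by positivity
      nlinarith

theorem tayD_add {f g : (Fin n → ℂ) → ℂ} {U : Set (Fin n → ℂ)} (hU : IsOpen U)
    (hf : DifferentiableOn ℂ f U) (hg : DifferentiableOn ℂ g U) (j : Fin n) :
    ∀ w ∈ U, tayD j (fun w => f w + g w) w = tayD j f w + tayD j g w := by
  intro w hw
  rw [tayD, fderiv_fun_add (hf.differentiableAt (hU.mem_nhds hw))
    (hg.differentiableAt (hU.mem_nhds hw))]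
  rfl

/-- the Taylor polynomial depends only on the germ -/
theorem tay_congr (K : ℕ) : ∀ {f g : (Fin n → ℂ) → ℂ} {U : Set (Fin n → ℂ)}, IsOpen U →
    (0 : Fin n → ℂ) ∈ U → (∀ w ∈ U, f w = g w) → tay K f = tay K g := by
  induction K with
  | zero => intro f g U _ _ _; rfl
  | succ K ih =>
    intro f g U hU h0 h
    rw [tay, tay, h 0 h0]
    congr 1
    refine Finset.sum_congr rfl fun j _ => ?_
    rw [ih hU h0 (f := tayD j f) (g := tayD j g)]
    intro w hw
    have h1 : f =ᶠ[𝓝 w] g := by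
      filter_upwards [hU.mem_nhds hw] with z hz using h z hz
    rw [tayD, tayD, h1.fderiv_eq]

theorem tay_add (K : ℕ) : ∀ {f g : (Fin n → ℂ) → ℂ} {U : Set (Fin n → ℂ)}, IsOpen U →
    (0 : Fin n → ℂ) ∈ U → DifferentiableOn ℂ f U → DifferentiableOn ℂ g U →
    tay K (fun w => f w + g w) = tay K f + tay K g := by
  induction K with
  | zero => intro f g U _ _ _ _; simp [tay]
  | succ K ih =>
    intro f g U hU h0 hf hg
    have h1 : ∀ j, tay K (tayD j fun w => f w + g w) = tay K (tayD j f) + tay K (tayD j g) := by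
      intro j
      rw [tay_congr K hU h0 (tayD_add hU hf hg j)]
      exact ih hU h0 (SCV.differentiableOn_fderiv_apply hU hf _)
        (SCV.differentiableOn_fderiv_apply hU hg _)
    simp only [tay, h1, tayI_add, mul_add, Finset.sum_add_distrib, C_add]
    ring

theorem tay_smul (K : ℕ) : ∀ {f : (Fin n → ℂ) → ℂ} {U : Set (Fin n → ℂ)} (a : ℂ), IsOpen U →
    (0 : Fin n → ℂ) ∈ U → DifferentiableOn ℂ f U →
    tay K (fun w => a * f w) = a • tay K f := by
  induction K with
  | zero => intro f U _ _ _ _; simp [tay]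
  | succ K ih =>
    intro f U a hU h0 hf
    have h1 : ∀ j, tay K (tayD j fun w => a * f w) = a • tay K (tayD j f) := by
      intro j
      have h2 : ∀ w ∈ U, tayD j (fun w => a * f w) w = a * tayD j f w := by
        intro w hw
        rw [tayD, fderiv_const_mul (hf.differentiableAt (hU.mem_nhds hw))]
        rfl
      rw [tay_congr K hU h0 h2]
      exact ih a hU h0 (SCV.differentiableOn_fderiv_apply hU hf _)
    simp only [tay, h1, tayI_smul, smul_add, Finset.smul_sum, mul_smul_comm]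
    congr 1
    rw [smul_eq_C_mul, ← C_mul]

/-! ### The Euclidean balls -/

theorem tay_norm_le_sqrt (w : Fin n → ℂ) : ‖w‖ ≤ √(nq w) := by
  rw [pi_norm_le_iff_of_nonneg (Real.sqrt_nonneg _)]
  intro i
  refine Real.le_sqrt_of_sq_le ?_
  exact Finset.single_le_sum (f := fun j => ‖w j‖ ^ 2) (fun _ _ => by positivity)
    (Finset.mem_univ i)

theorem tay_nq_le (w : Fin n → ℂ) : nq w ≤ n * ‖w‖ ^ 2 := by
  unfold nq
  have h1 : ∀ j ∈ (Finset.univ : Finset (Fin n)), ‖w j‖ ^ 2 ≤ ‖w‖ ^ 2 := fun j _ =>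
    pow_le_pow_left₀ (norm_nonneg _) (norm_le_pi_norm w j) 2
  refine (Finset.sum_le_sum h1).trans (le_of_eq ?_)
  rw [Finset.sum_const, Finset.card_univ, Fintype.card_fin, nsmul_eq_mul]

theorem tay_ball_subset {ρ : ℝ} (hρ : 0 < ρ) :
    ball (0 : Fin n → ℂ) (ρ / (n + 1)) ⊆ bal n ρ := by
  intro w hw
  rw [mem_ball_zero_iff, lt_div_iff₀ (by positivity)] at hw
  show nq w < ρ ^ 2
  have h1 := tay_nq_le w
  have h2 : 0 ≤ ‖w‖ := norm_nonneg _
  have h3 : (n : ℝ) * ‖w‖ ^ 2 ≤ (‖w‖ * (n + 1)) ^ 2 := by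
    have : (n : ℝ) ≤ (n + 1) ^ 2 := by nlinarith [(Nat.cast_nonneg n : (0 : ℝ) ≤ n)]
    calc (n : ℝ) * ‖w‖ ^ 2 ≤ (n + 1) ^ 2 * ‖w‖ ^ 2 := by gcongr
      _ = _ := by ring
  have h4 : (‖w‖ * (n + 1)) ^ 2 < ρ ^ 2 := by
    have : 0 ≤ ‖w‖ * (n + 1) := by positivity
    nlinarith
  linarith

/-- the size of a polynomial with bounded coefficients -/
theorem tay_eval_le {K : ℕ} {q : MvPolynomial (Fin n) ℂ} {ε : ℝ} (hK : ∀ m ∈ q.support, m.degree < K)
    (hε : ∀ m, ‖coeff m q‖ ≤ ε) {r : ℝ} (hr : 1 ≤ r) {w : Fin n → ℂ} (hw : ‖w‖ ≤ r) :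
    ‖eval w q‖ ≤ ((Finset.range K).biUnion fun d =>
      Finset.finsuppAntidiag (Finset.univ : Finset (Fin n)) d).card * r ^ K * ε := by
  classical
  have hε0 : 0 ≤ ε := (norm_nonneg _).trans (hε 0)
  rw [eval_eq]
  refine (norm_sum_le _ _).trans ?_
  have h1 : ∀ m ∈ q.support, ‖coeff m q * ∏ i ∈ m.support, w i ^ m i‖ ≤ r ^ K * ε := by
    intro m hm
    rw [norm_mul, mul_comm]
    refine mul_le_mul ?_ (hε m) (norm_nonneg _) (by positivity)
    rw [norm_prod]
    have h2 : ∏ i ∈ m.support, ‖w i ^ m i‖ ≤ ∏ i ∈ m.support, r ^ m i := by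
      refine Finset.prod_le_prod (fun _ _ => norm_nonneg _) fun i _ => ?_
      rw [norm_pow]
      exact pow_le_pow_left₀ (norm_nonneg _) ((norm_le_pi_norm w i).trans hw) _
    refine h2.trans ?_
    rw [Finset.prod_pow_eq_pow_sum]
    exact pow_le_pow_right₀ hr (hK m hm).le
  refine (Finset.sum_le_sum h1).trans ?_
  rw [Finset.sum_const, nsmul_eq_mul, mul_assoc]
  refine mul_le_mul_of_nonneg_right ?_ (by positivity)
  refine mod_cast Finset.card_le_card fun m hm => ?_
  simp only [Finset.mem_biUnion, Finset.mem_range, Finset.mem_finsuppAntidiag]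
  exact ⟨m.degree, hK m hm, by simp [Finsupp.degree_eq_sum], Finset.subset_univ _⟩

/-- the Taylor estimate on the Euclidean ball -/
theorem tay_bal (n K : ℕ) {ρ : ℝ} (hρ : 0 < ρ) : ∃ C : ℝ, 0 ≤ C ∧
    ∀ (f : (Fin n → ℂ) → ℂ) (t : ℝ), DifferentiableOn ℂ f (bal n ρ) →
      (∀ w, nq w < ρ ^ 2 → ‖f w‖ ≤ t) →
      (∀ m, ‖coeff m (tay K f)‖ ≤ C * t) ∧
      ∀ w, nq w < ρ ^ 2 → ‖f w - eval w (tay K f)‖ ≤ C * t * √(nq w) ^ K := by
  classical
  have hR : 0 < ρ / (n + 1) := by positivity
  obtain ⟨C, hC, h⟩ := tay_bound n K hR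
  set N : ℕ := ((Finset.range K).biUnion fun d =>
      Finset.finsuppAntidiag (Finset.univ : Finset (Fin n)) d).card with hN
  set δ : ℝ := ρ / (n + 1) / 2 ^ K with hδ
  have hδ0 : 0 < δ := by positivity
  have hC' : 0 ≤ (1 + N * (1 + ρ) ^ K * C) / δ ^ K := by positivity
  refine ⟨C + (1 + N * (1 + ρ) ^ K * C) / δ ^ K, by positivity, fun f t hf ht => ?_⟩
  have hsub := tay_ball_subset (n := n) hρ
  have ht0 : 0 ≤ t := (norm_nonneg _).trans (ht 0 (hsub (mem_ball_self hR)))
  obtain ⟨h1, h2⟩ := h f t (hf.mono hsub) fun w hw => ht w (hsub hw)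
  refine ⟨fun m => ?_, fun w hw => ?_⟩
  · refine (h1 m).trans ?_
    refine mul_le_mul_of_nonneg_right ?_ ht0
    linarith
  · by_cases hwδ : ‖w‖ < δ
    · have h3 := h2 w (mem_ball_zero_iff.mpr hwδ)
      refine h3.trans ?_
      have h4 : ‖w‖ ^ K ≤ √(nq w) ^ K := pow_le_pow_left₀ (norm_nonneg _) (tay_norm_le_sqrt w) K
      have h5 : C * t ≤ (C + (1 + N * (1 + ρ) ^ K * C) / δ ^ K) * t :=
        mul_le_mul_of_nonneg_right (by linarith) ht0
      exact mul_le_mul h5 h4 (by positivity) (by positivity)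
    · rw [not_lt] at hwδ
      have hwρ : ‖w‖ ≤ 1 + ρ := by
        have h3 : √(nq w) ≤ ρ := by
          rw [Real.sqrt_le_left hρ.le]
          exact hw.le
        have := tay_norm_le_sqrt w
        linarith
      have h3 := tay_eval_le (degree_lt_tay K f) h1 (by linarith : (1 : ℝ) ≤ 1 + ρ) hwρ
      have h4 : ‖f w - eval w (tay K f)‖ ≤ (1 + N * (1 + ρ) ^ K * C) * t := by
        refine (norm_sub_le _ _).trans ?_
        have := ht w hw
        calc ‖f w‖ + ‖eval w (tay K f)‖ ≤ t + N * (1 + ρ) ^ K * (C * t) := add_le_add this h3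
          _ = _ := by ring
      refine h4.trans ?_
      have h5 : δ ^ K ≤ √(nq w) ^ K :=
        pow_le_pow_left₀ hδ0.le (hwδ.trans (tay_norm_le_sqrt w)) K
      have h6 : 0 < δ ^ K := by positivity
      calc (1 + N * (1 + ρ) ^ K * C) * t
          = (1 + N * (1 + ρ) ^ K * C) / δ ^ K * t * δ ^ K := by field_simp
        _ ≤ (C + (1 + N * (1 + ρ) ^ K * C) / δ ^ K) * t * √(nq w) ^ K := by
            refine mul_le_mul ?_ h5 h6.le (by positivity)
            exact mul_le_mul_of_nonneg_right (by linarith) ht0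

theorem tay_X_pow_dvd {p : Polynomial ℂ} {K : ℕ} {C r : ℝ} (hr : 0 < r)
    (h : ∀ t : ℝ, 0 < t → t < r → ‖p.eval (t : ℂ)‖ ≤ C * t ^ K) : Polynomial.X ^ K ∣ p := by
  by_cases hp : p = 0
  · rw [hp]; exact dvd_zero _
  obtain ⟨q, hq⟩ : Polynomial.X ^ p.natTrailingDegree ∣ p := by
    rw [Polynomial.X_pow_dvd_iff]
    intro d hd
    exact Polynomial.coeff_eq_zero_of_lt_natTrailingDegree hd
  set k := p.natTrailingDegree with hk
  by_contra hcon
  have hkD : k < K := by
    by_contra hkK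
    exact hcon ((pow_dvd_pow _ (not_lt.mp hkK)).trans ⟨q, hq⟩)
  have hq0 : q.eval 0 ≠ 0 := by
    have h1 : p.coeff k ≠ 0 := Polynomial.coeff_natTrailingDegree_ne_zero.2 hp
    rw [hq, Polynomial.coeff_X_pow_mul', if_pos le_rfl, Nat.sub_self] at h1
    rwa [← Polynomial.coeff_zero_eq_eval_zero]
  have hlim : Tendsto (fun t : ℝ => ‖q.eval (t : ℂ)‖) (𝓝[>] 0) (𝓝 ‖q.eval 0‖) := by
    have h1 : Continuous fun t : ℝ => ‖q.eval (t : ℂ)‖ := by
      exact (q.continuous.comp Complex.continuous_ofReal).norm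
    have := (h1.tendsto 0).mono_left (nhdsWithin_le_nhds (s := Ioi 0))
    simpa using this
  have hlim2 : Tendsto (fun t : ℝ => C * t ^ (K - k)) (𝓝[>] 0) (𝓝 0) := by
    have h1 : Continuous fun t : ℝ => C * t ^ (K - k) := by fun_prop
    have := (h1.tendsto 0).mono_left (nhdsWithin_le_nhds (s := Ioi 0))
    have h2 : K - k ≠ 0 := by omega
    simpa [h2] using this
  have hle : ‖q.eval 0‖ ≤ 0 := by
    refine le_of_tendsto_of_tendsto hlim hlim2 ?_
    filter_upwards [Ioo_mem_nhdsGT hr] with t ht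
    have h1 := h t ht.1 ht.2
    rw [hq, Polynomial.eval_mul, Polynomial.eval_pow, Polynomial.eval_X, norm_mul, norm_pow,
      Complex.norm_real, Real.norm_eq_abs, abs_of_pos ht.1] at h1
    have h2 : t ^ K = t ^ k * t ^ (K - k) := by
      rw [← pow_add]; congr 1; omega
    rw [h2] at h1
    have h3 : (0 : ℝ) < t ^ k := pow_pos ht.1 _
    have h4 : t ^ k * ‖q.eval (t : ℂ)‖ ≤ t ^ k * (C * t ^ (K - k)) := by linarith
    exact le_of_mul_le_mul_left h4 h3
  exact hq0 (norm_le_zero_iff.1 hle)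

theorem tay_nq_smul (t : ℂ) (v : Fin n → ℂ) : nq (t • v) = ‖t‖ ^ 2 * nq v := by
  simp only [nq, Pi.smul_apply, smul_eq_mul, norm_mul, mul_pow, Finset.mul_sum]

theorem tay_nq_nonneg (v : Fin n → ℂ) : 0 ≤ nq v :=
  Finset.sum_nonneg fun _ _ => by positivity

/-- a polynomial which is `O(|w|^K)` lies in the `K`-th power of the maximal ideal -/
theorem mem_pow_of_le {K : ℕ} {q : MvPolynomial (Fin n) ℂ} {C r : ℝ} (hr : 0 < r)
    (h : ∀ w, nq w < r ^ 2 → ‖eval w q‖ ≤ C * √(nq w) ^ K) : q ∈ idealOfVars (Fin n) ℂ ^ K := by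
  classical
  have key : ∀ k < K, ∀ w, eval w (homogeneousComponent k q) = 0 := by
    intro k hk w
    let p : Polynomial ℂ := ∑ m ∈ q.support,
      Polynomial.C (coeff m q * ∏ i, w i ^ m i) * Polynomial.X ^ m.degree
    have hp : ∀ t : ℂ, p.eval t = eval (t • w) q := by
      intro t
      conv_rhs => rw [as_sum q]
      simp only [p, Polynomial.eval_finset_sum, Polynomial.eval_mul, Polynomial.eval_C,
        Polynomial.eval_pow, Polynomial.eval_X, map_sum]
      refine Finset.sum_congr rfl fun m _ => ?_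
      rw [eval_monomial, Finsupp.prod_fintype _ _ fun i => pow_zero _]
      simp only [Pi.smul_apply, smul_eq_mul, mul_pow, Finset.prod_mul_distrib]
      rw [Finset.prod_pow_eq_pow_sum, ← Finsupp.degree_eq_sum]
      ring
    have hpk : p.coeff k = eval w (homogeneousComponent k q) := by
      rw [homogeneousComponent_apply, map_sum]
      simp only [p, Polynomial.finset_sum_coeff, Polynomial.coeff_C_mul_X_pow]
      rw [Finset.sum_filter]
      refine Finset.sum_congr rfl fun m _ => ?_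
      rw [eval_monomial, Finsupp.prod_fintype _ _ fun i => pow_zero _]
      by_cases h1 : m.degree = k
      · rw [if_pos h1.symm, if_pos h1]
      · rw [if_neg (Ne.symm h1), if_neg h1]
    have hs0 : 0 < r / (√(nq w) + 1) := by positivity
    have h1 : Polynomial.X ^ K ∣ p := by
      refine tay_X_pow_dvd (C := C * √(nq w) ^ K) hs0 fun t ht htr => ?_
      rw [hp]
      have h2 : √(nq ((t : ℂ) • w)) = t * √(nq w) := by
        rw [tay_nq_smul, Complex.norm_real, Real.norm_eq_abs, sq_abs, Real.sqrt_mul (sq_nonneg t),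
          Real.sqrt_sq ht.le]
      have h3 : nq ((t : ℂ) • w) < r ^ 2 := by
        rw [← Real.sqrt_lt_sqrt_iff (tay_nq_nonneg _), h2, Real.sqrt_sq hr.le]
        rw [lt_div_iff₀ (by positivity)] at htr
        nlinarith [Real.sqrt_nonneg (nq w)]
      refine (h _ h3).trans (le_of_eq ?_)
      rw [h2, mul_pow]
      ring
    rw [← hpk]
    exact Polynomial.X_pow_dvd_iff.mp h1 k hk
  rw [mem_pow_idealOfVars_iff']
  intro m hm
  have h1 : homogeneousComponent m.degree q = 0 := by
    refine MvPolynomial.funext fun w => ?_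
    rw [key _ hm, map_zero]
  have h2 := coeff_homogeneousComponent m.degree q m
  rw [if_pos rfl, h1, coeff_zero] at h2
  exact h2.symm

end taylor

end Pool.Agent.Odp3
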